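import Pool.Agent.H66.Kiss.Data

/-!
# The certificate is valid (kernel computation)
-/

set_option autoImplicit false
set_option maxRecDepth 100000

namespace Pool.Agent.H66.Kiss

def lincomb : List ℤ → List P3 → P3
  | [], _ => []
  | _ :: _, [] => []
  | a :: l, v :: vs => add3 (smul3 a v) (lincomb l vs)

/-- `∑ c q²` -/
def sqs : List (ℕ × P3) → P3
  | [] => []
  | t :: l => add3 (smul3 (t.1 : ℤ) (mul3 t.2 t.2)) (sqs l)

def colTerms (cols : List (List ℤ)) (v : List P3) : List (ℕ × P3) :=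
  cols.map fun l => (1, lincomb l v)

def offTerms (offs : List (ℕ × ℕ × ℤ)) (v : List P3) : List (ℕ × P3) :=
  offs.map fun t => (t.2.2.natAbs,
    add3 (v.getD t.1 []) (smul3 (if t.2.2 < 0 then -1 else 1) (v.getD t.2.1 [])))

def slackTerms : List ℕ → List P3 → List (ℕ × P3)
  | [], _ => []
  | _ :: _, [] => []
  | s :: l, v :: vs => (s, v) :: slackTerms l vs

def block (w : P3) (v : List P3) (cols : List (List ℤ)) (offs : List (ℕ × ℕ × ℤ))
    (sl : List ℕ) : P3 :=
  mul3 w (sqs (colTerms cols v ++ (offTerms offs v ++ slackTerms sl v)))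

/-- a polynomial in the first variable -/
def inX (q : List ℤ) : P3 := q.map fun a => [[a]]

/-- a polynomial in the second variable -/
def inY (q : List ℤ) : P3 := [q.map fun a => [a]]

/-- `∑ c q(X) q(Y)` -/
def kq : List (ℕ × List ℤ) → P3
  | [] => []
  | t :: l => add3 (smul3 (t.1 : ℤ) (mul3 (inX t.2) (inY t.2))) (kq l)

def kern (g : P1) (l : List (ℕ × List ℤ)) : P3 := mul3 [[g]] (kq l)

def Kpoly : P3 :=
  add3 (kern g0 ((c0, phi0) :: k0)) <| add3 (kern g1 k1) <| add3 (kern g2 k2) <|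
  add3 (kern g3 k3) <| add3 (kern g4 k4) <| add3 (kern g5 k5) <| add3 (kern g6 k6) (kern g7 k7)

def Spoly : P3 :=
  add3 (block wS0a bS0a cS0a oS0a sS0a) <| add3 (block wBll bBll cBll oBll sBll) <|
  add3 (block wBlu bBlu cBlu oBlu sBlu) <| add3 (block wBlus bBlus cBlu oBlu sBlu) <|
  add3 (block wBuu bBuu cBuu oBuu sBuu) <| add3 (block wS0b bS0b cS0b oS0b sS0b) <|
  add3 (block wS0bs bS0bs cS0b oS0b sS0b) <| add3 (block wAb bAb cAb oAb sAb) <|
  add3 (block wAbs bAbs cAb oAb sAb) (block wAbb bAbb cAbb oAbb sAbb)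

theorem check : isZero3 (add3 Kpoly Spoly) = true := by decide +kernel

end Pool.Agent.H66.Kiss
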