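import Mathlib

/-!
# Positive definiteness of the Gegenbauer kernels of degree at most seven in `ℝ⁸`

`Gg L k s p` is the homogeneous Gegenbauer polynomial: `Gg L k s p = |x|^k |y|^k C_k^{(L/2)}(cos θ)` for
`s = ⟨x, y⟩` and `p = |x|² |y|²`. For `L = n - 2` it is a positive definite kernel on `ℝⁿ`; we prove
this for `n = 8` and `k ≤ 7` by induction on the dimension from the addition formula, checked as an
explicit polynomial identity.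
-/

set_option autoImplicit false

namespace Pool.Agent.H66.Kiss

open Finset

/-- homogeneous Gegenbauer polynomials `C_k^{(L/2)}` -/
noncomputable def Gg (L : ℝ) : ℕ → ℝ → ℝ → ℝ
  | 0, _, _ => 1
  | 1, s, _ => L * s
  | (k + 2), s, p => ((2 * (k : ℝ) + 2 + L) * s * Gg L (k + 1) s p - ((k : ℝ) + L) * p * Gg L k s p) / (k + 2)

/-- homogeneous Chebyshev polynomials -/
noncomputable def Tc : ℕ → ℝ → ℝ → ℝ
  | 0, _, _ => 1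
  | 1, s, _ => s
  | (k + 2), s, p => 2 * s * Tc (k + 1) s p - p * Tc k s p

def dot {n : ℕ} (x y : Fin n → ℝ) : ℝ := ∑ i, x i * y i

def nsq {n : ℕ} (x : Fin n → ℝ) : ℝ := ∑ i, x i ^ 2

/-- positive definite kernels on a type -/
structure PD {V : Type*} (K : V → V → ℝ) : Prop where
  nonneg : ∀ (ι : Type) [Fintype ι] (x : ι → V) (a : ι → ℝ),
    0 ≤ ∑ i, ∑ j, a i * a j * K (x i) (x j)

variable {V : Type*}

theorem PD.one : PD (fun _ _ : V => (1 : ℝ)) := by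
  refine ⟨fun ι _ x a => ?_⟩
  have : ∑ i, ∑ j, a i * a j * (1 : ℝ) = (∑ i, a i) ^ 2 := by
    simp only [mul_one, sq, Finset.sum_mul_sum]
  rw [this]; positivity

theorem PD.add {K L : V → V → ℝ} (hK : PD K) (hL : PD L) : PD (fun x y => K x y + L x y) := by
  refine ⟨fun ι _ x a => ?_⟩
  have : ∑ i, ∑ j, a i * a j * (K (x i) (x j) + L (x i) (x j)) =
      ∑ i, ∑ j, a i * a j * K (x i) (x j) + ∑ i, ∑ j, a i * a j * L (x i) (x j) := by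
    simp only [mul_add, Finset.sum_add_distrib]
  rw [this]; exact add_nonneg (hK.nonneg ι x a) (hL.nonneg ι x a)

theorem PD.congr {K L : V → V → ℝ} (hK : PD K) (h : ∀ x y, L x y = K x y) : PD L := by
  have : L = K := funext fun x => funext fun y => h x y
  rw [this]; exact hK

theorem PD.conj {K : V → V → ℝ} (hK : PD K) (A : V → ℝ) : PD (fun x y => A x * A y * K x y) := by
  refine ⟨fun ι _ x a => ?_⟩
  have h := hK.nonneg ι x (fun i => a i * A (x i))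
  have e : ∑ i, ∑ j, a i * a j * (A (x i) * A (x j) * K (x i) (x j)) =
      ∑ i, ∑ j, a i * A (x i) * (a j * A (x j)) * K (x i) (x j) :=
    Finset.sum_congr rfl fun i _ => Finset.sum_congr rfl fun j _ => by ring
  rw [e]; exact h

theorem PD.smul {K : V → V → ℝ} (hK : PD K) {c : ℝ} (hc : 0 ≤ c) : PD (fun x y => c * K x y) := by
  refine ⟨fun ι _ x a => ?_⟩
  have : ∑ i, ∑ j, a i * a j * (c * K (x i) (x j)) = c * ∑ i, ∑ j, a i * a j * K (x i) (x j) := by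
    simp only [Finset.mul_sum]
    refine Finset.sum_congr rfl fun i _ => Finset.sum_congr rfl fun j _ => ?_
    ring
  rw [this]; exact mul_nonneg hc (hK.nonneg ι x a)

theorem PD.comp {U : Type*} {K : V → V → ℝ} (hK : PD K) (f : U → V) : PD (fun x y => K (f x) (f y)) :=
  ⟨fun ι _ x a => hK.nonneg ι (fun i => f (x i)) a⟩

/-- the term of the addition formula -/
theorem PD.term {K : V → V → ℝ} (hK : PD K) (A : V → ℝ) {c : ℝ} (hc : 0 ≤ c) :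
    PD (fun x y => c * (A x * A y) * K x y) :=
  ((hK.conj A).smul hc).congr fun x y => by ring

theorem dot_succ {n : ℕ} (x y : Fin (n + 1) → ℝ) : dot x y = x 0 * y 0 + dot (Fin.tail x) (Fin.tail y) := by
  simp [dot, Fin.sum_univ_succ, Fin.tail]

theorem nsq_succ {n : ℕ} (x : Fin (n + 1) → ℝ) : nsq x = x 0 ^ 2 + nsq (Fin.tail x) := by
  simp [nsq, Fin.sum_univ_succ, Fin.tail]

theorem pd2_0 : PD (fun x y : Fin 2 → ℝ => Tc 0 (dot x y) (nsq x * nsq y)) :=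
  PD.one.congr fun x y => by rw [Tc]

theorem pd2_1 : PD (fun x y : Fin 2 → ℝ => Tc 1 (dot x y) (nsq x * nsq y)) := by
  refine ((PD.one.conj (fun x : Fin 2 → ℝ => 1 * x 0 ^ 1 * x 1 ^ 0)).add
    (PD.one.conj (fun x : Fin 2 → ℝ => 1 * x 0 ^ 0 * x 1 ^ 1))).congr fun x y => ?_
  simp only [dot, nsq, Fin.sum_univ_two, Tc]
  ring

theorem pd2_2 : PD (fun x y : Fin 2 → ℝ => Tc 2 (dot x y) (nsq x * nsq y)) := by
  refine ((PD.one.conj (fun x : Fin 2 → ℝ => 1 * x 0 ^ 2 * x 1 ^ 0 - 1 * x 0 ^ 0 * x 1 ^ 2)).add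
    (PD.one.conj (fun x : Fin 2 → ℝ => 2 * x 0 ^ 1 * x 1 ^ 1))).congr fun x y => ?_
  simp only [dot, nsq, Fin.sum_univ_two, Tc]
  ring

theorem pd2_3 : PD (fun x y : Fin 2 → ℝ => Tc 3 (dot x y) (nsq x * nsq y)) := by
  refine ((PD.one.conj (fun x : Fin 2 → ℝ => 1 * x 0 ^ 3 * x 1 ^ 0 - 3 * x 0 ^ 1 * x 1 ^ 2)).add
    (PD.one.conj (fun x : Fin 2 → ℝ => 3 * x 0 ^ 2 * x 1 ^ 1 - 1 * x 0 ^ 0 * x 1 ^ 3))).congr fun x y => ?_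
  simp only [dot, nsq, Fin.sum_univ_two, Tc]
  ring

theorem pd2_4 : PD (fun x y : Fin 2 → ℝ => Tc 4 (dot x y) (nsq x * nsq y)) := by
  refine ((PD.one.conj (fun x : Fin 2 → ℝ => 1 * x 0 ^ 4 * x 1 ^ 0 - 6 * x 0 ^ 2 * x 1 ^ 2 + 1 * x 0 ^ 0 * x 1 ^ 4)).add
    (PD.one.conj (fun x : Fin 2 → ℝ => 4 * x 0 ^ 3 * x 1 ^ 1 - 4 * x 0 ^ 1 * x 1 ^ 3))).congr fun x y => ?_
  simp only [dot, nsq, Fin.sum_univ_two, Tc]
  ring

theorem pd2_5 : PD (fun x y : Fin 2 → ℝ => Tc 5 (dot x y) (nsq x * nsq y)) := by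
  refine ((PD.one.conj (fun x : Fin 2 → ℝ => 1 * x 0 ^ 5 * x 1 ^ 0 - 10 * x 0 ^ 3 * x 1 ^ 2 + 5 * x 0 ^ 1 * x 1 ^ 4)).add
    (PD.one.conj (fun x : Fin 2 → ℝ => 5 * x 0 ^ 4 * x 1 ^ 1 - 10 * x 0 ^ 2 * x 1 ^ 3 + 1 * x 0 ^ 0 * x 1 ^ 5))).congr fun x y => ?_
  simp only [dot, nsq, Fin.sum_univ_two, Tc]
  ring

theorem pd2_6 : PD (fun x y : Fin 2 → ℝ => Tc 6 (dot x y) (nsq x * nsq y)) := by
  refine ((PD.one.conj (fun x : Fin 2 → ℝ => 1 * x 0 ^ 6 * x 1 ^ 0 - 15 * x 0 ^ 4 * x 1 ^ 2 + 15 * x 0 ^ 2 * x 1 ^ 4 - 1 * x 0 ^ 0 * x 1 ^ 6)).add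
    (PD.one.conj (fun x : Fin 2 → ℝ => 6 * x 0 ^ 5 * x 1 ^ 1 - 20 * x 0 ^ 3 * x 1 ^ 3 + 6 * x 0 ^ 1 * x 1 ^ 5))).congr fun x y => ?_
  simp only [dot, nsq, Fin.sum_univ_two, Tc]
  ring

theorem pd2_7 : PD (fun x y : Fin 2 → ℝ => Tc 7 (dot x y) (nsq x * nsq y)) := by
  refine ((PD.one.conj (fun x : Fin 2 → ℝ => 1 * x 0 ^ 7 * x 1 ^ 0 - 21 * x 0 ^ 5 * x 1 ^ 2 + 35 * x 0 ^ 3 * x 1 ^ 4 - 7 * x 0 ^ 1 * x 1 ^ 6)).add
    (PD.one.conj (fun x : Fin 2 → ℝ => 7 * x 0 ^ 6 * x 1 ^ 1 - 35 * x 0 ^ 4 * x 1 ^ 3 + 21 * x 0 ^ 2 * x 1 ^ 5 - 1 * x 0 ^ 0 * x 1 ^ 7))).congr fun x y => ?_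
  simp only [dot, nsq, Fin.sum_univ_two, Tc]
  ring

theorem pd3_0 : PD (fun x y : Fin 3 → ℝ => Gg 1 0 (dot x y) (nsq x * nsq y)) :=
  PD.one.congr fun x y => by rw [Gg]

theorem af3_1 (t u s r q : ℝ) : Gg 1 1 (t * u + s) ((t ^ 2 + r) * (u ^ 2 + q)) =
    1 * (Gg 1 1 t (t ^ 2 + r) * Gg 1 1 u (u ^ 2 + q)) * Tc 0 s (r * q) +
    1 * (Gg 3 0 t (t ^ 2 + r) * Gg 3 0 u (u ^ 2 + q)) * Tc 1 s (r * q) := by
  simp only [Gg, Tc]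
  push_cast
  ring

theorem pd3_1 : PD (fun x y : Fin 3 → ℝ => Gg 1 1 (dot x y) (nsq x * nsq y)) := by
  refine PD.congr (((pd2_0.comp Fin.tail).term (fun x => Gg 1 1 (x 0) (x 0 ^ 2 + nsq (Fin.tail x))) (c := 1) (by norm_num)).add
    ((pd2_1.comp Fin.tail).term (fun x => Gg 3 0 (x 0) (x 0 ^ 2 + nsq (Fin.tail x))) (c := 1) (by norm_num))) fun x y => ?_
  rw [dot_succ, nsq_succ x, nsq_succ y, af3_1]

theorem af3_2 (t u s r q : ℝ) : Gg 1 2 (t * u + s) ((t ^ 2 + r) * (u ^ 2 + q)) =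
    1 * (Gg 1 2 t (t ^ 2 + r) * Gg 1 2 u (u ^ 2 + q)) * Tc 0 s (r * q) +
    1/3 * (Gg 3 1 t (t ^ 2 + r) * Gg 3 1 u (u ^ 2 + q)) * Tc 1 s (r * q) +
    3/4 * (Gg 5 0 t (t ^ 2 + r) * Gg 5 0 u (u ^ 2 + q)) * Tc 2 s (r * q) := by
  simp only [Gg, Tc]
  push_cast
  ring

theorem pd3_2 : PD (fun x y : Fin 3 → ℝ => Gg 1 2 (dot x y) (nsq x * nsq y)) := by
  refine PD.congr ((((pd2_0.comp Fin.tail).term (fun x => Gg 1 2 (x 0) (x 0 ^ 2 + nsq (Fin.tail x))) (c := 1) (by norm_num)).add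
    ((pd2_1.comp Fin.tail).term (fun x => Gg 3 1 (x 0) (x 0 ^ 2 + nsq (Fin.tail x))) (c := 1/3) (by norm_num))).add
    ((pd2_2.comp Fin.tail).term (fun x => Gg 5 0 (x 0) (x 0 ^ 2 + nsq (Fin.tail x))) (c := 3/4) (by norm_num))) fun x y => ?_
  rw [dot_succ, nsq_succ x, nsq_succ y, af3_2]

theorem af3_3 (t u s r q : ℝ) : Gg 1 3 (t * u + s) ((t ^ 2 + r) * (u ^ 2 + q)) =
    1 * (Gg 1 3 t (t ^ 2 + r) * Gg 1 3 u (u ^ 2 + q)) * Tc 0 s (r * q) +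
    1/6 * (Gg 3 2 t (t ^ 2 + r) * Gg 3 2 u (u ^ 2 + q)) * Tc 1 s (r * q) +
    3/20 * (Gg 5 1 t (t ^ 2 + r) * Gg 5 1 u (u ^ 2 + q)) * Tc 2 s (r * q) +
    5/8 * (Gg 7 0 t (t ^ 2 + r) * Gg 7 0 u (u ^ 2 + q)) * Tc 3 s (r * q) := by
  simp only [Gg, Tc]
  push_cast
  ring

theorem pd3_3 : PD (fun x y : Fin 3 → ℝ => Gg 1 3 (dot x y) (nsq x * nsq y)) := by
  refine PD.congr (((((pd2_0.comp Fin.tail).term (fun x => Gg 1 3 (x 0) (x 0 ^ 2 + nsq (Fin.tail x))) (c := 1) (by norm_num)).add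
    ((pd2_1.comp Fin.tail).term (fun x => Gg 3 2 (x 0) (x 0 ^ 2 + nsq (Fin.tail x))) (c := 1/6) (by norm_num))).add
    ((pd2_2.comp Fin.tail).term (fun x => Gg 5 1 (x 0) (x 0 ^ 2 + nsq (Fin.tail x))) (c := 3/20) (by norm_num))).add
    ((pd2_3.comp Fin.tail).term (fun x => Gg 7 0 (x 0) (x 0 ^ 2 + nsq (Fin.tail x))) (c := 5/8) (by norm_num))) fun x y => ?_
  rw [dot_succ, nsq_succ x, nsq_succ y, af3_3]

theorem af3_4 (t u s r q : ℝ) : Gg 1 4 (t * u + s) ((t ^ 2 + r) * (u ^ 2 + q)) =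
    1 * (Gg 1 4 t (t ^ 2 + r) * Gg 1 4 u (u ^ 2 + q)) * Tc 0 s (r * q) +
    1/10 * (Gg 3 3 t (t ^ 2 + r) * Gg 3 3 u (u ^ 2 + q)) * Tc 1 s (r * q) +
    1/20 * (Gg 5 2 t (t ^ 2 + r) * Gg 5 2 u (u ^ 2 + q)) * Tc 2 s (r * q) +
    5/56 * (Gg 7 1 t (t ^ 2 + r) * Gg 7 1 u (u ^ 2 + q)) * Tc 3 s (r * q) +
    35/64 * (Gg 9 0 t (t ^ 2 + r) * Gg 9 0 u (u ^ 2 + q)) * Tc 4 s (r * q) := by
  simp only [Gg, Tc]
  push_cast
  ring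

theorem pd3_4 : PD (fun x y : Fin 3 → ℝ => Gg 1 4 (dot x y) (nsq x * nsq y)) := by
  refine PD.congr ((((((pd2_0.comp Fin.tail).term (fun x => Gg 1 4 (x 0) (x 0 ^ 2 + nsq (Fin.tail x))) (c := 1) (by norm_num)).add
    ((pd2_1.comp Fin.tail).term (fun x => Gg 3 3 (x 0) (x 0 ^ 2 + nsq (Fin.tail x))) (c := 1/10) (by norm_num))).add
    ((pd2_2.comp Fin.tail).term (fun x => Gg 5 2 (x 0) (x 0 ^ 2 + nsq (Fin.tail x))) (c := 1/20) (by norm_num))).add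
    ((pd2_3.comp Fin.tail).term (fun x => Gg 7 1 (x 0) (x 0 ^ 2 + nsq (Fin.tail x))) (c := 5/56) (by norm_num))).add
    ((pd2_4.comp Fin.tail).term (fun x => Gg 9 0 (x 0) (x 0 ^ 2 + nsq (Fin.tail x))) (c := 35/64) (by norm_num))) fun x y => ?_
  rw [dot_succ, nsq_succ x, nsq_succ y, af3_4]

theorem af3_5 (t u s r q : ℝ) : Gg 1 5 (t * u + s) ((t ^ 2 + r) * (u ^ 2 + q)) =
    1 * (Gg 1 5 t (t ^ 2 + r) * Gg 1 5 u (u ^ 2 + q)) * Tc 0 s (r * q) +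
    1/15 * (Gg 3 4 t (t ^ 2 + r) * Gg 3 4 u (u ^ 2 + q)) * Tc 1 s (r * q) +
    3/140 * (Gg 5 3 t (t ^ 2 + r) * Gg 5 3 u (u ^ 2 + q)) * Tc 2 s (r * q) +
    5/224 * (Gg 7 2 t (t ^ 2 + r) * Gg 7 2 u (u ^ 2 + q)) * Tc 3 s (r * q) +
    35/576 * (Gg 9 1 t (t ^ 2 + r) * Gg 9 1 u (u ^ 2 + q)) * Tc 4 s (r * q) +
    63/128 * (Gg 11 0 t (t ^ 2 + r) * Gg 11 0 u (u ^ 2 + q)) * Tc 5 s (r * q) := by
  simp only [Gg, Tc]
  push_cast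
  ring

theorem pd3_5 : PD (fun x y : Fin 3 → ℝ => Gg 1 5 (dot x y) (nsq x * nsq y)) := by
  refine PD.congr (((((((pd2_0.comp Fin.tail).term (fun x => Gg 1 5 (x 0) (x 0 ^ 2 + nsq (Fin.tail x))) (c := 1) (by norm_num)).add
    ((pd2_1.comp Fin.tail).term (fun x => Gg 3 4 (x 0) (x 0 ^ 2 + nsq (Fin.tail x))) (c := 1/15) (by norm_num))).add
    ((pd2_2.comp Fin.tail).term (fun x => Gg 5 3 (x 0) (x 0 ^ 2 + nsq (Fin.tail x))) (c := 3/140) (by norm_num))).add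
    ((pd2_3.comp Fin.tail).term (fun x => Gg 7 2 (x 0) (x 0 ^ 2 + nsq (Fin.tail x))) (c := 5/224) (by norm_num))).add
    ((pd2_4.comp Fin.tail).term (fun x => Gg 9 1 (x 0) (x 0 ^ 2 + nsq (Fin.tail x))) (c := 35/576) (by norm_num))).add
    ((pd2_5.comp Fin.tail).term (fun x => Gg 11 0 (x 0) (x 0 ^ 2 + nsq (Fin.tail x))) (c := 63/128) (by norm_num))) fun x y => ?_
  rw [dot_succ, nsq_succ x, nsq_succ y, af3_5]

theorem af3_6 (t u s r q : ℝ) : Gg 1 6 (t * u + s) ((t ^ 2 + r) * (u ^ 2 + q)) =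
    1 * (Gg 1 6 t (t ^ 2 + r) * Gg 1 6 u (u ^ 2 + q)) * Tc 0 s (r * q) +
    1/21 * (Gg 3 5 t (t ^ 2 + r) * Gg 3 5 u (u ^ 2 + q)) * Tc 1 s (r * q) +
    3/280 * (Gg 5 4 t (t ^ 2 + r) * Gg 5 4 u (u ^ 2 + q)) * Tc 2 s (r * q) +
    5/672 * (Gg 7 3 t (t ^ 2 + r) * Gg 7 3 u (u ^ 2 + q)) * Tc 3 s (r * q) +
    7/576 * (Gg 9 2 t (t ^ 2 + r) * Gg 9 2 u (u ^ 2 + q)) * Tc 4 s (r * q) +
    63/1408 * (Gg 11 1 t (t ^ 2 + r) * Gg 11 1 u (u ^ 2 + q)) * Tc 5 s (r * q) +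
    231/512 * (Gg 13 0 t (t ^ 2 + r) * Gg 13 0 u (u ^ 2 + q)) * Tc 6 s (r * q) := by
  simp only [Gg, Tc]
  push_cast
  ring

theorem pd3_6 : PD (fun x y : Fin 3 → ℝ => Gg 1 6 (dot x y) (nsq x * nsq y)) := by
  refine PD.congr ((((((((pd2_0.comp Fin.tail).term (fun x => Gg 1 6 (x 0) (x 0 ^ 2 + nsq (Fin.tail x))) (c := 1) (by norm_num)).add
    ((pd2_1.comp Fin.tail).term (fun x => Gg 3 5 (x 0) (x 0 ^ 2 + nsq (Fin.tail x))) (c := 1/21) (by norm_num))).add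
    ((pd2_2.comp Fin.tail).term (fun x => Gg 5 4 (x 0) (x 0 ^ 2 + nsq (Fin.tail x))) (c := 3/280) (by norm_num))).add
    ((pd2_3.comp Fin.tail).term (fun x => Gg 7 3 (x 0) (x 0 ^ 2 + nsq (Fin.tail x))) (c := 5/672) (by norm_num))).add
    ((pd2_4.comp Fin.tail).term (fun x => Gg 9 2 (x 0) (x 0 ^ 2 + nsq (Fin.tail x))) (c := 7/576) (by norm_num))).add
    ((pd2_5.comp Fin.tail).term (fun x => Gg 11 1 (x 0) (x 0 ^ 2 + nsq (Fin.tail x))) (c := 63/1408) (by norm_num))).add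
    ((pd2_6.comp Fin.tail).term (fun x => Gg 13 0 (x 0) (x 0 ^ 2 + nsq (Fin.tail x))) (c := 231/512) (by norm_num))) fun x y => ?_
  rw [dot_succ, nsq_succ x, nsq_succ y, af3_6]

theorem af3_7 (t u s r q : ℝ) : Gg 1 7 (t * u + s) ((t ^ 2 + r) * (u ^ 2 + q)) =
    1 * (Gg 1 7 t (t ^ 2 + r) * Gg 1 7 u (u ^ 2 + q)) * Tc 0 s (r * q) +
    1/28 * (Gg 3 6 t (t ^ 2 + r) * Gg 3 6 u (u ^ 2 + q)) * Tc 1 s (r * q) +
    1/168 * (Gg 5 5 t (t ^ 2 + r) * Gg 5 5 u (u ^ 2 + q)) * Tc 2 s (r * q) +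
    1/336 * (Gg 7 4 t (t ^ 2 + r) * Gg 7 4 u (u ^ 2 + q)) * Tc 3 s (r * q) +
    7/2112 * (Gg 9 3 t (t ^ 2 + r) * Gg 9 3 u (u ^ 2 + q)) * Tc 4 s (r * q) +
    21/2816 * (Gg 11 2 t (t ^ 2 + r) * Gg 11 2 u (u ^ 2 + q)) * Tc 5 s (r * q) +
    231/6656 * (Gg 13 1 t (t ^ 2 + r) * Gg 13 1 u (u ^ 2 + q)) * Tc 6 s (r * q) +
    429/1024 * (Gg 15 0 t (t ^ 2 + r) * Gg 15 0 u (u ^ 2 + q)) * Tc 7 s (r * q) := by
  simp only [Gg, Tc]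
  push_cast
  ring

theorem pd3_7 : PD (fun x y : Fin 3 → ℝ => Gg 1 7 (dot x y) (nsq x * nsq y)) := by
  refine PD.congr (((((((((pd2_0.comp Fin.tail).term (fun x => Gg 1 7 (x 0) (x 0 ^ 2 + nsq (Fin.tail x))) (c := 1) (by norm_num)).add
    ((pd2_1.comp Fin.tail).term (fun x => Gg 3 6 (x 0) (x 0 ^ 2 + nsq (Fin.tail x))) (c := 1/28) (by norm_num))).add
    ((pd2_2.comp Fin.tail).term (fun x => Gg 5 5 (x 0) (x 0 ^ 2 + nsq (Fin.tail x))) (c := 1/168) (by norm_num))).add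
    ((pd2_3.comp Fin.tail).term (fun x => Gg 7 4 (x 0) (x 0 ^ 2 + nsq (Fin.tail x))) (c := 1/336) (by norm_num))).add
    ((pd2_4.comp Fin.tail).term (fun x => Gg 9 3 (x 0) (x 0 ^ 2 + nsq (Fin.tail x))) (c := 7/2112) (by norm_num))).add
    ((pd2_5.comp Fin.tail).term (fun x => Gg 11 2 (x 0) (x 0 ^ 2 + nsq (Fin.tail x))) (c := 21/2816) (by norm_num))).add
    ((pd2_6.comp Fin.tail).term (fun x => Gg 13 1 (x 0) (x 0 ^ 2 + nsq (Fin.tail x))) (c := 231/6656) (by norm_num))).add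
    ((pd2_7.comp Fin.tail).term (fun x => Gg 15 0 (x 0) (x 0 ^ 2 + nsq (Fin.tail x))) (c := 429/1024) (by norm_num))) fun x y => ?_
  rw [dot_succ, nsq_succ x, nsq_succ y, af3_7]

theorem pd4_0 : PD (fun x y : Fin 4 → ℝ => Gg 2 0 (dot x y) (nsq x * nsq y)) :=
  PD.one.congr fun x y => by rw [Gg]

theorem af4_1 (t u s r q : ℝ) : Gg 2 1 (t * u + s) ((t ^ 2 + r) * (u ^ 2 + q)) =
    1/2 * (Gg 2 1 t (t ^ 2 + r) * Gg 2 1 u (u ^ 2 + q)) * Gg 1 0 s (r * q) +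
    2 * (Gg 4 0 t (t ^ 2 + r) * Gg 4 0 u (u ^ 2 + q)) * Gg 1 1 s (r * q) := by
  simp only [Gg, Tc]
  push_cast
  ring

theorem pd4_1 : PD (fun x y : Fin 4 → ℝ => Gg 2 1 (dot x y) (nsq x * nsq y)) := by
  refine PD.congr (((pd3_0.comp Fin.tail).term (fun x => Gg 2 1 (x 0) (x 0 ^ 2 + nsq (Fin.tail x))) (c := 1/2) (by norm_num)).add
    ((pd3_1.comp Fin.tail).term (fun x => Gg 4 0 (x 0) (x 0 ^ 2 + nsq (Fin.tail x))) (c := 2) (by norm_num))) fun x y => ?_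
  rw [dot_succ, nsq_succ x, nsq_succ y, af4_1]

theorem af4_2 (t u s r q : ℝ) : Gg 2 2 (t * u + s) ((t ^ 2 + r) * (u ^ 2 + q)) =
    1/3 * (Gg 2 2 t (t ^ 2 + r) * Gg 2 2 u (u ^ 2 + q)) * Gg 1 0 s (r * q) +
    1/2 * (Gg 4 1 t (t ^ 2 + r) * Gg 4 1 u (u ^ 2 + q)) * Gg 1 1 s (r * q) +
    8/3 * (Gg 6 0 t (t ^ 2 + r) * Gg 6 0 u (u ^ 2 + q)) * Gg 1 2 s (r * q) := by
  simp only [Gg, Tc]
  push_cast
  ring

theorem pd4_2 : PD (fun x y : Fin 4 → ℝ => Gg 2 2 (dot x y) (nsq x * nsq y)) := by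
  refine PD.congr ((((pd3_0.comp Fin.tail).term (fun x => Gg 2 2 (x 0) (x 0 ^ 2 + nsq (Fin.tail x))) (c := 1/3) (by norm_num)).add
    ((pd3_1.comp Fin.tail).term (fun x => Gg 4 1 (x 0) (x 0 ^ 2 + nsq (Fin.tail x))) (c := 1/2) (by norm_num))).add
    ((pd3_2.comp Fin.tail).term (fun x => Gg 6 0 (x 0) (x 0 ^ 2 + nsq (Fin.tail x))) (c := 8/3) (by norm_num))) fun x y => ?_
  rw [dot_succ, nsq_succ x, nsq_succ y, af4_2]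

theorem af4_3 (t u s r q : ℝ) : Gg 2 3 (t * u + s) ((t ^ 2 + r) * (u ^ 2 + q)) =
    1/4 * (Gg 2 3 t (t ^ 2 + r) * Gg 2 3 u (u ^ 2 + q)) * Gg 1 0 s (r * q) +
    1/5 * (Gg 4 2 t (t ^ 2 + r) * Gg 4 2 u (u ^ 2 + q)) * Gg 1 1 s (r * q) +
    4/9 * (Gg 6 1 t (t ^ 2 + r) * Gg 6 1 u (u ^ 2 + q)) * Gg 1 2 s (r * q) +
    16/5 * (Gg 8 0 t (t ^ 2 + r) * Gg 8 0 u (u ^ 2 + q)) * Gg 1 3 s (r * q) := by
  simp only [Gg, Tc]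
  push_cast
  ring

theorem pd4_3 : PD (fun x y : Fin 4 → ℝ => Gg 2 3 (dot x y) (nsq x * nsq y)) := by
  refine PD.congr (((((pd3_0.comp Fin.tail).term (fun x => Gg 2 3 (x 0) (x 0 ^ 2 + nsq (Fin.tail x))) (c := 1/4) (by norm_num)).add
    ((pd3_1.comp Fin.tail).term (fun x => Gg 4 2 (x 0) (x 0 ^ 2 + nsq (Fin.tail x))) (c := 1/5) (by norm_num))).add
    ((pd3_2.comp Fin.tail).term (fun x => Gg 6 1 (x 0) (x 0 ^ 2 + nsq (Fin.tail x))) (c := 4/9) (by norm_num))).add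
    ((pd3_3.comp Fin.tail).term (fun x => Gg 8 0 (x 0) (x 0 ^ 2 + nsq (Fin.tail x))) (c := 16/5) (by norm_num))) fun x y => ?_
  rw [dot_succ, nsq_succ x, nsq_succ y, af4_3]

theorem af4_4 (t u s r q : ℝ) : Gg 2 4 (t * u + s) ((t ^ 2 + r) * (u ^ 2 + q)) =
    1/5 * (Gg 2 4 t (t ^ 2 + r) * Gg 2 4 u (u ^ 2 + q)) * Gg 1 0 s (r * q) +
    1/10 * (Gg 4 3 t (t ^ 2 + r) * Gg 4 3 u (u ^ 2 + q)) * Gg 1 1 s (r * q) +
    8/63 * (Gg 6 2 t (t ^ 2 + r) * Gg 6 2 u (u ^ 2 + q)) * Gg 1 2 s (r * q) +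
    2/5 * (Gg 8 1 t (t ^ 2 + r) * Gg 8 1 u (u ^ 2 + q)) * Gg 1 3 s (r * q) +
    128/35 * (Gg 10 0 t (t ^ 2 + r) * Gg 10 0 u (u ^ 2 + q)) * Gg 1 4 s (r * q) := by
  simp only [Gg, Tc]
  push_cast
  ring

theorem pd4_4 : PD (fun x y : Fin 4 → ℝ => Gg 2 4 (dot x y) (nsq x * nsq y)) := by
  refine PD.congr ((((((pd3_0.comp Fin.tail).term (fun x => Gg 2 4 (x 0) (x 0 ^ 2 + nsq (Fin.tail x))) (c := 1/5) (by norm_num)).add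
    ((pd3_1.comp Fin.tail).term (fun x => Gg 4 3 (x 0) (x 0 ^ 2 + nsq (Fin.tail x))) (c := 1/10) (by norm_num))).add
    ((pd3_2.comp Fin.tail).term (fun x => Gg 6 2 (x 0) (x 0 ^ 2 + nsq (Fin.tail x))) (c := 8/63) (by norm_num))).add
    ((pd3_3.comp Fin.tail).term (fun x => Gg 8 1 (x 0) (x 0 ^ 2 + nsq (Fin.tail x))) (c := 2/5) (by norm_num))).add
    ((pd3_4.comp Fin.tail).term (fun x => Gg 10 0 (x 0) (x 0 ^ 2 + nsq (Fin.tail x))) (c := 128/35) (by norm_num))) fun x y => ?_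
  rw [dot_succ, nsq_succ x, nsq_succ y, af4_4]

theorem af4_5 (t u s r q : ℝ) : Gg 2 5 (t * u + s) ((t ^ 2 + r) * (u ^ 2 + q)) =
    1/6 * (Gg 2 5 t (t ^ 2 + r) * Gg 2 5 u (u ^ 2 + q)) * Gg 1 0 s (r * q) +
    2/35 * (Gg 4 4 t (t ^ 2 + r) * Gg 4 4 u (u ^ 2 + q)) * Gg 1 1 s (r * q) +
    1/21 * (Gg 6 3 t (t ^ 2 + r) * Gg 6 3 u (u ^ 2 + q)) * Gg 1 2 s (r * q) +
    4/45 * (Gg 8 2 t (t ^ 2 + r) * Gg 8 2 u (u ^ 2 + q)) * Gg 1 3 s (r * q) +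
    64/175 * (Gg 10 1 t (t ^ 2 + r) * Gg 10 1 u (u ^ 2 + q)) * Gg 1 4 s (r * q) +
    256/63 * (Gg 12 0 t (t ^ 2 + r) * Gg 12 0 u (u ^ 2 + q)) * Gg 1 5 s (r * q) := by
  simp only [Gg, Tc]
  push_cast
  ring

theorem pd4_5 : PD (fun x y : Fin 4 → ℝ => Gg 2 5 (dot x y) (nsq x * nsq y)) := by
  refine PD.congr (((((((pd3_0.comp Fin.tail).term (fun x => Gg 2 5 (x 0) (x 0 ^ 2 + nsq (Fin.tail x))) (c := 1/6) (by norm_num)).add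
    ((pd3_1.comp Fin.tail).term (fun x => Gg 4 4 (x 0) (x 0 ^ 2 + nsq (Fin.tail x))) (c := 2/35) (by norm_num))).add
    ((pd3_2.comp Fin.tail).term (fun x => Gg 6 3 (x 0) (x 0 ^ 2 + nsq (Fin.tail x))) (c := 1/21) (by norm_num))).add
    ((pd3_3.comp Fin.tail).term (fun x => Gg 8 2 (x 0) (x 0 ^ 2 + nsq (Fin.tail x))) (c := 4/45) (by norm_num))).add
    ((pd3_4.comp Fin.tail).term (fun x => Gg 10 1 (x 0) (x 0 ^ 2 + nsq (Fin.tail x))) (c := 64/175) (by norm_num))).add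
    ((pd3_5.comp Fin.tail).term (fun x => Gg 12 0 (x 0) (x 0 ^ 2 + nsq (Fin.tail x))) (c := 256/63) (by norm_num))) fun x y => ?_
  rw [dot_succ, nsq_succ x, nsq_succ y, af4_5]

theorem af4_6 (t u s r q : ℝ) : Gg 2 6 (t * u + s) ((t ^ 2 + r) * (u ^ 2 + q)) =
    1/7 * (Gg 2 6 t (t ^ 2 + r) * Gg 2 6 u (u ^ 2 + q)) * Gg 1 0 s (r * q) +
    1/28 * (Gg 4 5 t (t ^ 2 + r) * Gg 4 5 u (u ^ 2 + q)) * Gg 1 1 s (r * q) +
    4/189 * (Gg 6 4 t (t ^ 2 + r) * Gg 6 4 u (u ^ 2 + q)) * Gg 1 2 s (r * q) +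
    2/75 * (Gg 8 3 t (t ^ 2 + r) * Gg 8 3 u (u ^ 2 + q)) * Gg 1 3 s (r * q) +
    128/1925 * (Gg 10 2 t (t ^ 2 + r) * Gg 10 2 u (u ^ 2 + q)) * Gg 1 4 s (r * q) +
    64/189 * (Gg 12 1 t (t ^ 2 + r) * Gg 12 1 u (u ^ 2 + q)) * Gg 1 5 s (r * q) +
    1024/231 * (Gg 14 0 t (t ^ 2 + r) * Gg 14 0 u (u ^ 2 + q)) * Gg 1 6 s (r * q) := by
  simp only [Gg, Tc]
  push_cast
  ring

theorem pd4_6 : PD (fun x y : Fin 4 → ℝ => Gg 2 6 (dot x y) (nsq x * nsq y)) := by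
  refine PD.congr ((((((((pd3_0.comp Fin.tail).term (fun x => Gg 2 6 (x 0) (x 0 ^ 2 + nsq (Fin.tail x))) (c := 1/7) (by norm_num)).add
    ((pd3_1.comp Fin.tail).term (fun x => Gg 4 5 (x 0) (x 0 ^ 2 + nsq (Fin.tail x))) (c := 1/28) (by norm_num))).add
    ((pd3_2.comp Fin.tail).term (fun x => Gg 6 4 (x 0) (x 0 ^ 2 + nsq (Fin.tail x))) (c := 4/189) (by norm_num))).add
    ((pd3_3.comp Fin.tail).term (fun x => Gg 8 3 (x 0) (x 0 ^ 2 + nsq (Fin.tail x))) (c := 2/75) (by norm_num))).add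
    ((pd3_4.comp Fin.tail).term (fun x => Gg 10 2 (x 0) (x 0 ^ 2 + nsq (Fin.tail x))) (c := 128/1925) (by norm_num))).add
    ((pd3_5.comp Fin.tail).term (fun x => Gg 12 1 (x 0) (x 0 ^ 2 + nsq (Fin.tail x))) (c := 64/189) (by norm_num))).add
    ((pd3_6.comp Fin.tail).term (fun x => Gg 14 0 (x 0) (x 0 ^ 2 + nsq (Fin.tail x))) (c := 1024/231) (by norm_num))) fun x y => ?_
  rw [dot_succ, nsq_succ x, nsq_succ y, af4_6]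

theorem af4_7 (t u s r q : ℝ) : Gg 2 7 (t * u + s) ((t ^ 2 + r) * (u ^ 2 + q)) =
    1/8 * (Gg 2 7 t (t ^ 2 + r) * Gg 2 7 u (u ^ 2 + q)) * Gg 1 0 s (r * q) +
    1/42 * (Gg 4 6 t (t ^ 2 + r) * Gg 4 6 u (u ^ 2 + q)) * Gg 1 1 s (r * q) +
    2/189 * (Gg 6 5 t (t ^ 2 + r) * Gg 6 5 u (u ^ 2 + q)) * Gg 1 2 s (r * q) +
    8/825 * (Gg 8 4 t (t ^ 2 + r) * Gg 8 4 u (u ^ 2 + q)) * Gg 1 3 s (r * q) +
    32/1925 * (Gg 10 3 t (t ^ 2 + r) * Gg 10 3 u (u ^ 2 + q)) * Gg 1 4 s (r * q) +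
    128/2457 * (Gg 12 2 t (t ^ 2 + r) * Gg 12 2 u (u ^ 2 + q)) * Gg 1 5 s (r * q) +
    512/1617 * (Gg 14 1 t (t ^ 2 + r) * Gg 14 1 u (u ^ 2 + q)) * Gg 1 6 s (r * q) +
    2048/429 * (Gg 16 0 t (t ^ 2 + r) * Gg 16 0 u (u ^ 2 + q)) * Gg 1 7 s (r * q) := by
  simp only [Gg, Tc]
  push_cast
  ring

theorem pd4_7 : PD (fun x y : Fin 4 → ℝ => Gg 2 7 (dot x y) (nsq x * nsq y)) := by
  refine PD.congr (((((((((pd3_0.comp Fin.tail).term (fun x => Gg 2 7 (x 0) (x 0 ^ 2 + nsq (Fin.tail x))) (c := 1/8) (by norm_num)).add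
    ((pd3_1.comp Fin.tail).term (fun x => Gg 4 6 (x 0) (x 0 ^ 2 + nsq (Fin.tail x))) (c := 1/42) (by norm_num))).add
    ((pd3_2.comp Fin.tail).term (fun x => Gg 6 5 (x 0) (x 0 ^ 2 + nsq (Fin.tail x))) (c := 2/189) (by norm_num))).add
    ((pd3_3.comp Fin.tail).term (fun x => Gg 8 4 (x 0) (x 0 ^ 2 + nsq (Fin.tail x))) (c := 8/825) (by norm_num))).add
    ((pd3_4.comp Fin.tail).term (fun x => Gg 10 3 (x 0) (x 0 ^ 2 + nsq (Fin.tail x))) (c := 32/1925) (by norm_num))).add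
    ((pd3_5.comp Fin.tail).term (fun x => Gg 12 2 (x 0) (x 0 ^ 2 + nsq (Fin.tail x))) (c := 128/2457) (by norm_num))).add
    ((pd3_6.comp Fin.tail).term (fun x => Gg 14 1 (x 0) (x 0 ^ 2 + nsq (Fin.tail x))) (c := 512/1617) (by norm_num))).add
    ((pd3_7.comp Fin.tail).term (fun x => Gg 16 0 (x 0) (x 0 ^ 2 + nsq (Fin.tail x))) (c := 2048/429) (by norm_num))) fun x y => ?_
  rw [dot_succ, nsq_succ x, nsq_succ y, af4_7]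

theorem pd5_0 : PD (fun x y : Fin 5 → ℝ => Gg 3 0 (dot x y) (nsq x * nsq y)) :=
  PD.one.congr fun x y => by rw [Gg]

theorem af5_1 (t u s r q : ℝ) : Gg 3 1 (t * u + s) ((t ^ 2 + r) * (u ^ 2 + q)) =
    1/3 * (Gg 3 1 t (t ^ 2 + r) * Gg 3 1 u (u ^ 2 + q)) * Gg 2 0 s (r * q) +
    3/2 * (Gg 5 0 t (t ^ 2 + r) * Gg 5 0 u (u ^ 2 + q)) * Gg 2 1 s (r * q) := by
  simp only [Gg, Tc]
  push_cast
  ring

theorem pd5_1 : PD (fun x y : Fin 5 → ℝ => Gg 3 1 (dot x y) (nsq x * nsq y)) := by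
  refine PD.congr (((pd4_0.comp Fin.tail).term (fun x => Gg 3 1 (x 0) (x 0 ^ 2 + nsq (Fin.tail x))) (c := 1/3) (by norm_num)).add
    ((pd4_1.comp Fin.tail).term (fun x => Gg 5 0 (x 0) (x 0 ^ 2 + nsq (Fin.tail x))) (c := 3/2) (by norm_num))) fun x y => ?_
  rw [dot_succ, nsq_succ x, nsq_succ y, af5_1]

theorem af5_2 (t u s r q : ℝ) : Gg 3 2 (t * u + s) ((t ^ 2 + r) * (u ^ 2 + q)) =
    1/6 * (Gg 3 2 t (t ^ 2 + r) * Gg 3 2 u (u ^ 2 + q)) * Gg 2 0 s (r * q) +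
    3/10 * (Gg 5 1 t (t ^ 2 + r) * Gg 5 1 u (u ^ 2 + q)) * Gg 2 1 s (r * q) +
    15/8 * (Gg 7 0 t (t ^ 2 + r) * Gg 7 0 u (u ^ 2 + q)) * Gg 2 2 s (r * q) := by
  simp only [Gg, Tc]
  push_cast
  ring

theorem pd5_2 : PD (fun x y : Fin 5 → ℝ => Gg 3 2 (dot x y) (nsq x * nsq y)) := by
  refine PD.congr ((((pd4_0.comp Fin.tail).term (fun x => Gg 3 2 (x 0) (x 0 ^ 2 + nsq (Fin.tail x))) (c := 1/6) (by norm_num)).add
    ((pd4_1.comp Fin.tail).term (fun x => Gg 5 1 (x 0) (x 0 ^ 2 + nsq (Fin.tail x))) (c := 3/10) (by norm_num))).add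
    ((pd4_2.comp Fin.tail).term (fun x => Gg 7 0 (x 0) (x 0 ^ 2 + nsq (Fin.tail x))) (c := 15/8) (by norm_num))) fun x y => ?_
  rw [dot_succ, nsq_succ x, nsq_succ y, af5_2]

theorem af5_3 (t u s r q : ℝ) : Gg 3 3 (t * u + s) ((t ^ 2 + r) * (u ^ 2 + q)) =
    1/10 * (Gg 3 3 t (t ^ 2 + r) * Gg 3 3 u (u ^ 2 + q)) * Gg 2 0 s (r * q) +
    1/10 * (Gg 5 2 t (t ^ 2 + r) * Gg 5 2 u (u ^ 2 + q)) * Gg 2 1 s (r * q) +
    15/56 * (Gg 7 1 t (t ^ 2 + r) * Gg 7 1 u (u ^ 2 + q)) * Gg 2 2 s (r * q) +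
    35/16 * (Gg 9 0 t (t ^ 2 + r) * Gg 9 0 u (u ^ 2 + q)) * Gg 2 3 s (r * q) := by
  simp only [Gg, Tc]
  push_cast
  ring

theorem pd5_3 : PD (fun x y : Fin 5 → ℝ => Gg 3 3 (dot x y) (nsq x * nsq y)) := by
  refine PD.congr (((((pd4_0.comp Fin.tail).term (fun x => Gg 3 3 (x 0) (x 0 ^ 2 + nsq (Fin.tail x))) (c := 1/10) (by norm_num)).add
    ((pd4_1.comp Fin.tail).term (fun x => Gg 5 2 (x 0) (x 0 ^ 2 + nsq (Fin.tail x))) (c := 1/10) (by norm_num))).add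
    ((pd4_2.comp Fin.tail).term (fun x => Gg 7 1 (x 0) (x 0 ^ 2 + nsq (Fin.tail x))) (c := 15/56) (by norm_num))).add
    ((pd4_3.comp Fin.tail).term (fun x => Gg 9 0 (x 0) (x 0 ^ 2 + nsq (Fin.tail x))) (c := 35/16) (by norm_num))) fun x y => ?_
  rw [dot_succ, nsq_succ x, nsq_succ y, af5_3]

theorem af5_4 (t u s r q : ℝ) : Gg 3 4 (t * u + s) ((t ^ 2 + r) * (u ^ 2 + q)) =
    1/15 * (Gg 3 4 t (t ^ 2 + r) * Gg 3 4 u (u ^ 2 + q)) * Gg 2 0 s (r * q) +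
    3/70 * (Gg 5 3 t (t ^ 2 + r) * Gg 5 3 u (u ^ 2 + q)) * Gg 2 1 s (r * q) +
    15/224 * (Gg 7 2 t (t ^ 2 + r) * Gg 7 2 u (u ^ 2 + q)) * Gg 2 2 s (r * q) +
    35/144 * (Gg 9 1 t (t ^ 2 + r) * Gg 9 1 u (u ^ 2 + q)) * Gg 2 3 s (r * q) +
    315/128 * (Gg 11 0 t (t ^ 2 + r) * Gg 11 0 u (u ^ 2 + q)) * Gg 2 4 s (r * q) := by
  simp only [Gg, Tc]
  push_cast
  ring

theorem pd5_4 : PD (fun x y : Fin 5 → ℝ => Gg 3 4 (dot x y) (nsq x * nsq y)) := by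
  refine PD.congr ((((((pd4_0.comp Fin.tail).term (fun x => Gg 3 4 (x 0) (x 0 ^ 2 + nsq (Fin.tail x))) (c := 1/15) (by norm_num)).add
    ((pd4_1.comp Fin.tail).term (fun x => Gg 5 3 (x 0) (x 0 ^ 2 + nsq (Fin.tail x))) (c := 3/70) (by norm_num))).add
    ((pd4_2.comp Fin.tail).term (fun x => Gg 7 2 (x 0) (x 0 ^ 2 + nsq (Fin.tail x))) (c := 15/224) (by norm_num))).add
    ((pd4_3.comp Fin.tail).term (fun x => Gg 9 1 (x 0) (x 0 ^ 2 + nsq (Fin.tail x))) (c := 35/144) (by norm_num))).add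
    ((pd4_4.comp Fin.tail).term (fun x => Gg 11 0 (x 0) (x 0 ^ 2 + nsq (Fin.tail x))) (c := 315/128) (by norm_num))) fun x y => ?_
  rw [dot_succ, nsq_succ x, nsq_succ y, af5_4]

theorem af5_5 (t u s r q : ℝ) : Gg 3 5 (t * u + s) ((t ^ 2 + r) * (u ^ 2 + q)) =
    1/21 * (Gg 3 5 t (t ^ 2 + r) * Gg 3 5 u (u ^ 2 + q)) * Gg 2 0 s (r * q) +
    3/140 * (Gg 5 4 t (t ^ 2 + r) * Gg 5 4 u (u ^ 2 + q)) * Gg 2 1 s (r * q) +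
    5/224 * (Gg 7 3 t (t ^ 2 + r) * Gg 7 3 u (u ^ 2 + q)) * Gg 2 2 s (r * q) +
    7/144 * (Gg 9 2 t (t ^ 2 + r) * Gg 9 2 u (u ^ 2 + q)) * Gg 2 3 s (r * q) +
    315/1408 * (Gg 11 1 t (t ^ 2 + r) * Gg 11 1 u (u ^ 2 + q)) * Gg 2 4 s (r * q) +
    693/256 * (Gg 13 0 t (t ^ 2 + r) * Gg 13 0 u (u ^ 2 + q)) * Gg 2 5 s (r * q) := by
  simp only [Gg, Tc]
  push_cast
  ring

theorem pd5_5 : PD (fun x y : Fin 5 → ℝ => Gg 3 5 (dot x y) (nsq x * nsq y)) := by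
  refine PD.congr (((((((pd4_0.comp Fin.tail).term (fun x => Gg 3 5 (x 0) (x 0 ^ 2 + nsq (Fin.tail x))) (c := 1/21) (by norm_num)).add
    ((pd4_1.comp Fin.tail).term (fun x => Gg 5 4 (x 0) (x 0 ^ 2 + nsq (Fin.tail x))) (c := 3/140) (by norm_num))).add
    ((pd4_2.comp Fin.tail).term (fun x => Gg 7 3 (x 0) (x 0 ^ 2 + nsq (Fin.tail x))) (c := 5/224) (by norm_num))).add
    ((pd4_3.comp Fin.tail).term (fun x => Gg 9 2 (x 0) (x 0 ^ 2 + nsq (Fin.tail x))) (c := 7/144) (by norm_num))).add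
    ((pd4_4.comp Fin.tail).term (fun x => Gg 11 1 (x 0) (x 0 ^ 2 + nsq (Fin.tail x))) (c := 315/1408) (by norm_num))).add
    ((pd4_5.comp Fin.tail).term (fun x => Gg 13 0 (x 0) (x 0 ^ 2 + nsq (Fin.tail x))) (c := 693/256) (by norm_num))) fun x y => ?_
  rw [dot_succ, nsq_succ x, nsq_succ y, af5_5]

theorem af5_6 (t u s r q : ℝ) : Gg 3 6 (t * u + s) ((t ^ 2 + r) * (u ^ 2 + q)) =
    1/28 * (Gg 3 6 t (t ^ 2 + r) * Gg 3 6 u (u ^ 2 + q)) * Gg 2 0 s (r * q) +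
    1/84 * (Gg 5 5 t (t ^ 2 + r) * Gg 5 5 u (u ^ 2 + q)) * Gg 2 1 s (r * q) +
    1/112 * (Gg 7 4 t (t ^ 2 + r) * Gg 7 4 u (u ^ 2 + q)) * Gg 2 2 s (r * q) +
    7/528 * (Gg 9 3 t (t ^ 2 + r) * Gg 9 3 u (u ^ 2 + q)) * Gg 2 3 s (r * q) +
    105/2816 * (Gg 11 2 t (t ^ 2 + r) * Gg 11 2 u (u ^ 2 + q)) * Gg 2 4 s (r * q) +
    693/3328 * (Gg 13 1 t (t ^ 2 + r) * Gg 13 1 u (u ^ 2 + q)) * Gg 2 5 s (r * q) +
    3003/1024 * (Gg 15 0 t (t ^ 2 + r) * Gg 15 0 u (u ^ 2 + q)) * Gg 2 6 s (r * q) := by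
  simp only [Gg, Tc]
  push_cast
  ring

theorem pd5_6 : PD (fun x y : Fin 5 → ℝ => Gg 3 6 (dot x y) (nsq x * nsq y)) := by
  refine PD.congr ((((((((pd4_0.comp Fin.tail).term (fun x => Gg 3 6 (x 0) (x 0 ^ 2 + nsq (Fin.tail x))) (c := 1/28) (by norm_num)).add
    ((pd4_1.comp Fin.tail).term (fun x => Gg 5 5 (x 0) (x 0 ^ 2 + nsq (Fin.tail x))) (c := 1/84) (by norm_num))).add
    ((pd4_2.comp Fin.tail).term (fun x => Gg 7 4 (x 0) (x 0 ^ 2 + nsq (Fin.tail x))) (c := 1/112) (by norm_num))).add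
    ((pd4_3.comp Fin.tail).term (fun x => Gg 9 3 (x 0) (x 0 ^ 2 + nsq (Fin.tail x))) (c := 7/528) (by norm_num))).add
    ((pd4_4.comp Fin.tail).term (fun x => Gg 11 2 (x 0) (x 0 ^ 2 + nsq (Fin.tail x))) (c := 105/2816) (by norm_num))).add
    ((pd4_5.comp Fin.tail).term (fun x => Gg 13 1 (x 0) (x 0 ^ 2 + nsq (Fin.tail x))) (c := 693/3328) (by norm_num))).add
    ((pd4_6.comp Fin.tail).term (fun x => Gg 15 0 (x 0) (x 0 ^ 2 + nsq (Fin.tail x))) (c := 3003/1024) (by norm_num))) fun x y => ?_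
  rw [dot_succ, nsq_succ x, nsq_succ y, af5_6]

theorem af5_7 (t u s r q : ℝ) : Gg 3 7 (t * u + s) ((t ^ 2 + r) * (u ^ 2 + q)) =
    1/36 * (Gg 3 7 t (t ^ 2 + r) * Gg 3 7 u (u ^ 2 + q)) * Gg 2 0 s (r * q) +
    1/140 * (Gg 5 6 t (t ^ 2 + r) * Gg 5 6 u (u ^ 2 + q)) * Gg 2 1 s (r * q) +
    5/1232 * (Gg 7 5 t (t ^ 2 + r) * Gg 7 5 u (u ^ 2 + q)) * Gg 2 2 s (r * q) +
    7/1584 * (Gg 9 4 t (t ^ 2 + r) * Gg 9 4 u (u ^ 2 + q)) * Gg 2 3 s (r * q) +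
    315/36608 * (Gg 11 3 t (t ^ 2 + r) * Gg 11 3 u (u ^ 2 + q)) * Gg 2 4 s (r * q) +
    99/3328 * (Gg 13 2 t (t ^ 2 + r) * Gg 13 2 u (u ^ 2 + q)) * Gg 2 5 s (r * q) +
    1001/5120 * (Gg 15 1 t (t ^ 2 + r) * Gg 15 1 u (u ^ 2 + q)) * Gg 2 6 s (r * q) +
    6435/2048 * (Gg 17 0 t (t ^ 2 + r) * Gg 17 0 u (u ^ 2 + q)) * Gg 2 7 s (r * q) := by
  simp only [Gg, Tc]
  push_cast
  ring

theorem pd5_7 : PD (fun x y : Fin 5 → ℝ => Gg 3 7 (dot x y) (nsq x * nsq y)) := by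
  refine PD.congr (((((((((pd4_0.comp Fin.tail).term (fun x => Gg 3 7 (x 0) (x 0 ^ 2 + nsq (Fin.tail x))) (c := 1/36) (by norm_num)).add
    ((pd4_1.comp Fin.tail).term (fun x => Gg 5 6 (x 0) (x 0 ^ 2 + nsq (Fin.tail x))) (c := 1/140) (by norm_num))).add
    ((pd4_2.comp Fin.tail).term (fun x => Gg 7 5 (x 0) (x 0 ^ 2 + nsq (Fin.tail x))) (c := 5/1232) (by norm_num))).add
    ((pd4_3.comp Fin.tail).term (fun x => Gg 9 4 (x 0) (x 0 ^ 2 + nsq (Fin.tail x))) (c := 7/1584) (by norm_num))).add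
    ((pd4_4.comp Fin.tail).term (fun x => Gg 11 3 (x 0) (x 0 ^ 2 + nsq (Fin.tail x))) (c := 315/36608) (by norm_num))).add
    ((pd4_5.comp Fin.tail).term (fun x => Gg 13 2 (x 0) (x 0 ^ 2 + nsq (Fin.tail x))) (c := 99/3328) (by norm_num))).add
    ((pd4_6.comp Fin.tail).term (fun x => Gg 15 1 (x 0) (x 0 ^ 2 + nsq (Fin.tail x))) (c := 1001/5120) (by norm_num))).add
    ((pd4_7.comp Fin.tail).term (fun x => Gg 17 0 (x 0) (x 0 ^ 2 + nsq (Fin.tail x))) (c := 6435/2048) (by norm_num))) fun x y => ?_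
  rw [dot_succ, nsq_succ x, nsq_succ y, af5_7]

theorem pd6_0 : PD (fun x y : Fin 6 → ℝ => Gg 4 0 (dot x y) (nsq x * nsq y)) :=
  PD.one.congr fun x y => by rw [Gg]

theorem af6_1 (t u s r q : ℝ) : Gg 4 1 (t * u + s) ((t ^ 2 + r) * (u ^ 2 + q)) =
    1/4 * (Gg 4 1 t (t ^ 2 + r) * Gg 4 1 u (u ^ 2 + q)) * Gg 3 0 s (r * q) +
    4/3 * (Gg 6 0 t (t ^ 2 + r) * Gg 6 0 u (u ^ 2 + q)) * Gg 3 1 s (r * q) := by
  simp only [Gg, Tc]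
  push_cast
  ring

theorem pd6_1 : PD (fun x y : Fin 6 → ℝ => Gg 4 1 (dot x y) (nsq x * nsq y)) := by
  refine PD.congr (((pd5_0.comp Fin.tail).term (fun x => Gg 4 1 (x 0) (x 0 ^ 2 + nsq (Fin.tail x))) (c := 1/4) (by norm_num)).add
    ((pd5_1.comp Fin.tail).term (fun x => Gg 6 0 (x 0) (x 0 ^ 2 + nsq (Fin.tail x))) (c := 4/3) (by norm_num))) fun x y => ?_
  rw [dot_succ, nsq_succ x, nsq_succ y, af6_1]

theorem af6_2 (t u s r q : ℝ) : Gg 4 2 (t * u + s) ((t ^ 2 + r) * (u ^ 2 + q)) =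
    1/10 * (Gg 4 2 t (t ^ 2 + r) * Gg 4 2 u (u ^ 2 + q)) * Gg 3 0 s (r * q) +
    2/9 * (Gg 6 1 t (t ^ 2 + r) * Gg 6 1 u (u ^ 2 + q)) * Gg 3 1 s (r * q) +
    8/5 * (Gg 8 0 t (t ^ 2 + r) * Gg 8 0 u (u ^ 2 + q)) * Gg 3 2 s (r * q) := by
  simp only [Gg, Tc]
  push_cast
  ring

theorem pd6_2 : PD (fun x y : Fin 6 → ℝ => Gg 4 2 (dot x y) (nsq x * nsq y)) := by
  refine PD.congr ((((pd5_0.comp Fin.tail).term (fun x => Gg 4 2 (x 0) (x 0 ^ 2 + nsq (Fin.tail x))) (c := 1/10) (by norm_num)).add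
    ((pd5_1.comp Fin.tail).term (fun x => Gg 6 1 (x 0) (x 0 ^ 2 + nsq (Fin.tail x))) (c := 2/9) (by norm_num))).add
    ((pd5_2.comp Fin.tail).term (fun x => Gg 8 0 (x 0) (x 0 ^ 2 + nsq (Fin.tail x))) (c := 8/5) (by norm_num))) fun x y => ?_
  rw [dot_succ, nsq_succ x, nsq_succ y, af6_2]

theorem af6_3 (t u s r q : ℝ) : Gg 4 3 (t * u + s) ((t ^ 2 + r) * (u ^ 2 + q)) =
    1/20 * (Gg 4 3 t (t ^ 2 + r) * Gg 4 3 u (u ^ 2 + q)) * Gg 3 0 s (r * q) +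
    4/63 * (Gg 6 2 t (t ^ 2 + r) * Gg 6 2 u (u ^ 2 + q)) * Gg 3 1 s (r * q) +
    1/5 * (Gg 8 1 t (t ^ 2 + r) * Gg 8 1 u (u ^ 2 + q)) * Gg 3 2 s (r * q) +
    64/35 * (Gg 10 0 t (t ^ 2 + r) * Gg 10 0 u (u ^ 2 + q)) * Gg 3 3 s (r * q) := by
  simp only [Gg, Tc]
  push_cast
  ring

theorem pd6_3 : PD (fun x y : Fin 6 → ℝ => Gg 4 3 (dot x y) (nsq x * nsq y)) := by
  refine PD.congr (((((pd5_0.comp Fin.tail).term (fun x => Gg 4 3 (x 0) (x 0 ^ 2 + nsq (Fin.tail x))) (c := 1/20) (by norm_num)).add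
    ((pd5_1.comp Fin.tail).term (fun x => Gg 6 2 (x 0) (x 0 ^ 2 + nsq (Fin.tail x))) (c := 4/63) (by norm_num))).add
    ((pd5_2.comp Fin.tail).term (fun x => Gg 8 1 (x 0) (x 0 ^ 2 + nsq (Fin.tail x))) (c := 1/5) (by norm_num))).add
    ((pd5_3.comp Fin.tail).term (fun x => Gg 10 0 (x 0) (x 0 ^ 2 + nsq (Fin.tail x))) (c := 64/35) (by norm_num))) fun x y => ?_
  rw [dot_succ, nsq_succ x, nsq_succ y, af6_3]

theorem af6_4 (t u s r q : ℝ) : Gg 4 4 (t * u + s) ((t ^ 2 + r) * (u ^ 2 + q)) =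
    1/35 * (Gg 4 4 t (t ^ 2 + r) * Gg 4 4 u (u ^ 2 + q)) * Gg 3 0 s (r * q) +
    1/42 * (Gg 6 3 t (t ^ 2 + r) * Gg 6 3 u (u ^ 2 + q)) * Gg 3 1 s (r * q) +
    2/45 * (Gg 8 2 t (t ^ 2 + r) * Gg 8 2 u (u ^ 2 + q)) * Gg 3 2 s (r * q) +
    32/175 * (Gg 10 1 t (t ^ 2 + r) * Gg 10 1 u (u ^ 2 + q)) * Gg 3 3 s (r * q) +
    128/63 * (Gg 12 0 t (t ^ 2 + r) * Gg 12 0 u (u ^ 2 + q)) * Gg 3 4 s (r * q) := by
  simp only [Gg, Tc]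
  push_cast
  ring

theorem pd6_4 : PD (fun x y : Fin 6 → ℝ => Gg 4 4 (dot x y) (nsq x * nsq y)) := by
  refine PD.congr ((((((pd5_0.comp Fin.tail).term (fun x => Gg 4 4 (x 0) (x 0 ^ 2 + nsq (Fin.tail x))) (c := 1/35) (by norm_num)).add
    ((pd5_1.comp Fin.tail).term (fun x => Gg 6 3 (x 0) (x 0 ^ 2 + nsq (Fin.tail x))) (c := 1/42) (by norm_num))).add
    ((pd5_2.comp Fin.tail).term (fun x => Gg 8 2 (x 0) (x 0 ^ 2 + nsq (Fin.tail x))) (c := 2/45) (by norm_num))).add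
    ((pd5_3.comp Fin.tail).term (fun x => Gg 10 1 (x 0) (x 0 ^ 2 + nsq (Fin.tail x))) (c := 32/175) (by norm_num))).add
    ((pd5_4.comp Fin.tail).term (fun x => Gg 12 0 (x 0) (x 0 ^ 2 + nsq (Fin.tail x))) (c := 128/63) (by norm_num))) fun x y => ?_
  rw [dot_succ, nsq_succ x, nsq_succ y, af6_4]

theorem af6_5 (t u s r q : ℝ) : Gg 4 5 (t * u + s) ((t ^ 2 + r) * (u ^ 2 + q)) =
    1/56 * (Gg 4 5 t (t ^ 2 + r) * Gg 4 5 u (u ^ 2 + q)) * Gg 3 0 s (r * q) +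
    2/189 * (Gg 6 4 t (t ^ 2 + r) * Gg 6 4 u (u ^ 2 + q)) * Gg 3 1 s (r * q) +
    1/75 * (Gg 8 3 t (t ^ 2 + r) * Gg 8 3 u (u ^ 2 + q)) * Gg 3 2 s (r * q) +
    64/1925 * (Gg 10 2 t (t ^ 2 + r) * Gg 10 2 u (u ^ 2 + q)) * Gg 3 3 s (r * q) +
    32/189 * (Gg 12 1 t (t ^ 2 + r) * Gg 12 1 u (u ^ 2 + q)) * Gg 3 4 s (r * q) +
    512/231 * (Gg 14 0 t (t ^ 2 + r) * Gg 14 0 u (u ^ 2 + q)) * Gg 3 5 s (r * q) := by
  simp only [Gg, Tc]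
  push_cast
  ring

theorem pd6_5 : PD (fun x y : Fin 6 → ℝ => Gg 4 5 (dot x y) (nsq x * nsq y)) := by
  refine PD.congr (((((((pd5_0.comp Fin.tail).term (fun x => Gg 4 5 (x 0) (x 0 ^ 2 + nsq (Fin.tail x))) (c := 1/56) (by norm_num)).add
    ((pd5_1.comp Fin.tail).term (fun x => Gg 6 4 (x 0) (x 0 ^ 2 + nsq (Fin.tail x))) (c := 2/189) (by norm_num))).add
    ((pd5_2.comp Fin.tail).term (fun x => Gg 8 3 (x 0) (x 0 ^ 2 + nsq (Fin.tail x))) (c := 1/75) (by norm_num))).add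
    ((pd5_3.comp Fin.tail).term (fun x => Gg 10 2 (x 0) (x 0 ^ 2 + nsq (Fin.tail x))) (c := 64/1925) (by norm_num))).add
    ((pd5_4.comp Fin.tail).term (fun x => Gg 12 1 (x 0) (x 0 ^ 2 + nsq (Fin.tail x))) (c := 32/189) (by norm_num))).add
    ((pd5_5.comp Fin.tail).term (fun x => Gg 14 0 (x 0) (x 0 ^ 2 + nsq (Fin.tail x))) (c := 512/231) (by norm_num))) fun x y => ?_
  rw [dot_succ, nsq_succ x, nsq_succ y, af6_5]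

theorem af6_6 (t u s r q : ℝ) : Gg 4 6 (t * u + s) ((t ^ 2 + r) * (u ^ 2 + q)) =
    1/84 * (Gg 4 6 t (t ^ 2 + r) * Gg 4 6 u (u ^ 2 + q)) * Gg 3 0 s (r * q) +
    1/189 * (Gg 6 5 t (t ^ 2 + r) * Gg 6 5 u (u ^ 2 + q)) * Gg 3 1 s (r * q) +
    4/825 * (Gg 8 4 t (t ^ 2 + r) * Gg 8 4 u (u ^ 2 + q)) * Gg 3 2 s (r * q) +
    16/1925 * (Gg 10 3 t (t ^ 2 + r) * Gg 10 3 u (u ^ 2 + q)) * Gg 3 3 s (r * q) +
    64/2457 * (Gg 12 2 t (t ^ 2 + r) * Gg 12 2 u (u ^ 2 + q)) * Gg 3 4 s (r * q) +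
    256/1617 * (Gg 14 1 t (t ^ 2 + r) * Gg 14 1 u (u ^ 2 + q)) * Gg 3 5 s (r * q) +
    1024/429 * (Gg 16 0 t (t ^ 2 + r) * Gg 16 0 u (u ^ 2 + q)) * Gg 3 6 s (r * q) := by
  simp only [Gg, Tc]
  push_cast
  ring

theorem pd6_6 : PD (fun x y : Fin 6 → ℝ => Gg 4 6 (dot x y) (nsq x * nsq y)) := by
  refine PD.congr ((((((((pd5_0.comp Fin.tail).term (fun x => Gg 4 6 (x 0) (x 0 ^ 2 + nsq (Fin.tail x))) (c := 1/84) (by norm_num)).add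
    ((pd5_1.comp Fin.tail).term (fun x => Gg 6 5 (x 0) (x 0 ^ 2 + nsq (Fin.tail x))) (c := 1/189) (by norm_num))).add
    ((pd5_2.comp Fin.tail).term (fun x => Gg 8 4 (x 0) (x 0 ^ 2 + nsq (Fin.tail x))) (c := 4/825) (by norm_num))).add
    ((pd5_3.comp Fin.tail).term (fun x => Gg 10 3 (x 0) (x 0 ^ 2 + nsq (Fin.tail x))) (c := 16/1925) (by norm_num))).add
    ((pd5_4.comp Fin.tail).term (fun x => Gg 12 2 (x 0) (x 0 ^ 2 + nsq (Fin.tail x))) (c := 64/2457) (by norm_num))).add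
    ((pd5_5.comp Fin.tail).term (fun x => Gg 14 1 (x 0) (x 0 ^ 2 + nsq (Fin.tail x))) (c := 256/1617) (by norm_num))).add
    ((pd5_6.comp Fin.tail).term (fun x => Gg 16 0 (x 0) (x 0 ^ 2 + nsq (Fin.tail x))) (c := 1024/429) (by norm_num))) fun x y => ?_
  rw [dot_succ, nsq_succ x, nsq_succ y, af6_6]

theorem af6_7 (t u s r q : ℝ) : Gg 4 7 (t * u + s) ((t ^ 2 + r) * (u ^ 2 + q)) =
    1/120 * (Gg 4 7 t (t ^ 2 + r) * Gg 4 7 u (u ^ 2 + q)) * Gg 3 0 s (r * q) +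
    2/693 * (Gg 6 6 t (t ^ 2 + r) * Gg 6 6 u (u ^ 2 + q)) * Gg 3 1 s (r * q) +
    1/495 * (Gg 8 5 t (t ^ 2 + r) * Gg 8 5 u (u ^ 2 + q)) * Gg 3 2 s (r * q) +
    64/25025 * (Gg 10 4 t (t ^ 2 + r) * Gg 10 4 u (u ^ 2 + q)) * Gg 3 3 s (r * q) +
    32/5733 * (Gg 12 3 t (t ^ 2 + r) * Gg 12 3 u (u ^ 2 + q)) * Gg 3 4 s (r * q) +
    512/24255 * (Gg 14 2 t (t ^ 2 + r) * Gg 14 2 u (u ^ 2 + q)) * Gg 3 5 s (r * q) +
    64/429 * (Gg 16 1 t (t ^ 2 + r) * Gg 16 1 u (u ^ 2 + q)) * Gg 3 6 s (r * q) +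
    16384/6435 * (Gg 18 0 t (t ^ 2 + r) * Gg 18 0 u (u ^ 2 + q)) * Gg 3 7 s (r * q) := by
  simp only [Gg, Tc]
  push_cast
  ring

theorem pd6_7 : PD (fun x y : Fin 6 → ℝ => Gg 4 7 (dot x y) (nsq x * nsq y)) := by
  refine PD.congr (((((((((pd5_0.comp Fin.tail).term (fun x => Gg 4 7 (x 0) (x 0 ^ 2 + nsq (Fin.tail x))) (c := 1/120) (by norm_num)).add
    ((pd5_1.comp Fin.tail).term (fun x => Gg 6 6 (x 0) (x 0 ^ 2 + nsq (Fin.tail x))) (c := 2/693) (by norm_num))).add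
    ((pd5_2.comp Fin.tail).term (fun x => Gg 8 5 (x 0) (x 0 ^ 2 + nsq (Fin.tail x))) (c := 1/495) (by norm_num))).add
    ((pd5_3.comp Fin.tail).term (fun x => Gg 10 4 (x 0) (x 0 ^ 2 + nsq (Fin.tail x))) (c := 64/25025) (by norm_num))).add
    ((pd5_4.comp Fin.tail).term (fun x => Gg 12 3 (x 0) (x 0 ^ 2 + nsq (Fin.tail x))) (c := 32/5733) (by norm_num))).add
    ((pd5_5.comp Fin.tail).term (fun x => Gg 14 2 (x 0) (x 0 ^ 2 + nsq (Fin.tail x))) (c := 512/24255) (by norm_num))).add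
    ((pd5_6.comp Fin.tail).term (fun x => Gg 16 1 (x 0) (x 0 ^ 2 + nsq (Fin.tail x))) (c := 64/429) (by norm_num))).add
    ((pd5_7.comp Fin.tail).term (fun x => Gg 18 0 (x 0) (x 0 ^ 2 + nsq (Fin.tail x))) (c := 16384/6435) (by norm_num))) fun x y => ?_
  rw [dot_succ, nsq_succ x, nsq_succ y, af6_7]

theorem pd7_0 : PD (fun x y : Fin 7 → ℝ => Gg 5 0 (dot x y) (nsq x * nsq y)) :=
  PD.one.congr fun x y => by rw [Gg]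

theorem af7_1 (t u s r q : ℝ) : Gg 5 1 (t * u + s) ((t ^ 2 + r) * (u ^ 2 + q)) =
    1/5 * (Gg 5 1 t (t ^ 2 + r) * Gg 5 1 u (u ^ 2 + q)) * Gg 4 0 s (r * q) +
    5/4 * (Gg 7 0 t (t ^ 2 + r) * Gg 7 0 u (u ^ 2 + q)) * Gg 4 1 s (r * q) := by
  simp only [Gg, Tc]
  push_cast
  ring

theorem pd7_1 : PD (fun x y : Fin 7 → ℝ => Gg 5 1 (dot x y) (nsq x * nsq y)) := by
  refine PD.congr (((pd6_0.comp Fin.tail).term (fun x => Gg 5 1 (x 0) (x 0 ^ 2 + nsq (Fin.tail x))) (c := 1/5) (by norm_num)).add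
    ((pd6_1.comp Fin.tail).term (fun x => Gg 7 0 (x 0) (x 0 ^ 2 + nsq (Fin.tail x))) (c := 5/4) (by norm_num))) fun x y => ?_
  rw [dot_succ, nsq_succ x, nsq_succ y, af7_1]

theorem af7_2 (t u s r q : ℝ) : Gg 5 2 (t * u + s) ((t ^ 2 + r) * (u ^ 2 + q)) =
    1/15 * (Gg 5 2 t (t ^ 2 + r) * Gg 5 2 u (u ^ 2 + q)) * Gg 4 0 s (r * q) +
    5/28 * (Gg 7 1 t (t ^ 2 + r) * Gg 7 1 u (u ^ 2 + q)) * Gg 4 1 s (r * q) +
    35/24 * (Gg 9 0 t (t ^ 2 + r) * Gg 9 0 u (u ^ 2 + q)) * Gg 4 2 s (r * q) := by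
  simp only [Gg, Tc]
  push_cast
  ring

theorem pd7_2 : PD (fun x y : Fin 7 → ℝ => Gg 5 2 (dot x y) (nsq x * nsq y)) := by
  refine PD.congr ((((pd6_0.comp Fin.tail).term (fun x => Gg 5 2 (x 0) (x 0 ^ 2 + nsq (Fin.tail x))) (c := 1/15) (by norm_num)).add
    ((pd6_1.comp Fin.tail).term (fun x => Gg 7 1 (x 0) (x 0 ^ 2 + nsq (Fin.tail x))) (c := 5/28) (by norm_num))).add
    ((pd6_2.comp Fin.tail).term (fun x => Gg 9 0 (x 0) (x 0 ^ 2 + nsq (Fin.tail x))) (c := 35/24) (by norm_num))) fun x y => ?_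
  rw [dot_succ, nsq_succ x, nsq_succ y, af7_2]

theorem af7_3 (t u s r q : ℝ) : Gg 5 3 (t * u + s) ((t ^ 2 + r) * (u ^ 2 + q)) =
    1/35 * (Gg 5 3 t (t ^ 2 + r) * Gg 5 3 u (u ^ 2 + q)) * Gg 4 0 s (r * q) +
    5/112 * (Gg 7 2 t (t ^ 2 + r) * Gg 7 2 u (u ^ 2 + q)) * Gg 4 1 s (r * q) +
    35/216 * (Gg 9 1 t (t ^ 2 + r) * Gg 9 1 u (u ^ 2 + q)) * Gg 4 2 s (r * q) +
    105/64 * (Gg 11 0 t (t ^ 2 + r) * Gg 11 0 u (u ^ 2 + q)) * Gg 4 3 s (r * q) := by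
  simp only [Gg, Tc]
  push_cast
  ring

theorem pd7_3 : PD (fun x y : Fin 7 → ℝ => Gg 5 3 (dot x y) (nsq x * nsq y)) := by
  refine PD.congr (((((pd6_0.comp Fin.tail).term (fun x => Gg 5 3 (x 0) (x 0 ^ 2 + nsq (Fin.tail x))) (c := 1/35) (by norm_num)).add
    ((pd6_1.comp Fin.tail).term (fun x => Gg 7 2 (x 0) (x 0 ^ 2 + nsq (Fin.tail x))) (c := 5/112) (by norm_num))).add
    ((pd6_2.comp Fin.tail).term (fun x => Gg 9 1 (x 0) (x 0 ^ 2 + nsq (Fin.tail x))) (c := 35/216) (by norm_num))).add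
    ((pd6_3.comp Fin.tail).term (fun x => Gg 11 0 (x 0) (x 0 ^ 2 + nsq (Fin.tail x))) (c := 105/64) (by norm_num))) fun x y => ?_
  rw [dot_succ, nsq_succ x, nsq_succ y, af7_3]

theorem af7_4 (t u s r q : ℝ) : Gg 5 4 (t * u + s) ((t ^ 2 + r) * (u ^ 2 + q)) =
    1/70 * (Gg 5 4 t (t ^ 2 + r) * Gg 5 4 u (u ^ 2 + q)) * Gg 4 0 s (r * q) +
    5/336 * (Gg 7 3 t (t ^ 2 + r) * Gg 7 3 u (u ^ 2 + q)) * Gg 4 1 s (r * q) +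
    7/216 * (Gg 9 2 t (t ^ 2 + r) * Gg 9 2 u (u ^ 2 + q)) * Gg 4 2 s (r * q) +
    105/704 * (Gg 11 1 t (t ^ 2 + r) * Gg 11 1 u (u ^ 2 + q)) * Gg 4 3 s (r * q) +
    231/128 * (Gg 13 0 t (t ^ 2 + r) * Gg 13 0 u (u ^ 2 + q)) * Gg 4 4 s (r * q) := by
  simp only [Gg, Tc]
  push_cast
  ring

theorem pd7_4 : PD (fun x y : Fin 7 → ℝ => Gg 5 4 (dot x y) (nsq x * nsq y)) := by
  refine PD.congr ((((((pd6_0.comp Fin.tail).term (fun x => Gg 5 4 (x 0) (x 0 ^ 2 + nsq (Fin.tail x))) (c := 1/70) (by norm_num)).add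
    ((pd6_1.comp Fin.tail).term (fun x => Gg 7 3 (x 0) (x 0 ^ 2 + nsq (Fin.tail x))) (c := 5/336) (by norm_num))).add
    ((pd6_2.comp Fin.tail).term (fun x => Gg 9 2 (x 0) (x 0 ^ 2 + nsq (Fin.tail x))) (c := 7/216) (by norm_num))).add
    ((pd6_3.comp Fin.tail).term (fun x => Gg 11 1 (x 0) (x 0 ^ 2 + nsq (Fin.tail x))) (c := 105/704) (by norm_num))).add
    ((pd6_4.comp Fin.tail).term (fun x => Gg 13 0 (x 0) (x 0 ^ 2 + nsq (Fin.tail x))) (c := 231/128) (by norm_num))) fun x y => ?_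
  rw [dot_succ, nsq_succ x, nsq_succ y, af7_4]

theorem af7_5 (t u s r q : ℝ) : Gg 5 5 (t * u + s) ((t ^ 2 + r) * (u ^ 2 + q)) =
    1/126 * (Gg 5 5 t (t ^ 2 + r) * Gg 5 5 u (u ^ 2 + q)) * Gg 4 0 s (r * q) +
    1/168 * (Gg 7 4 t (t ^ 2 + r) * Gg 7 4 u (u ^ 2 + q)) * Gg 4 1 s (r * q) +
    7/792 * (Gg 9 3 t (t ^ 2 + r) * Gg 9 3 u (u ^ 2 + q)) * Gg 4 2 s (r * q) +
    35/1408 * (Gg 11 2 t (t ^ 2 + r) * Gg 11 2 u (u ^ 2 + q)) * Gg 4 3 s (r * q) +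
    231/1664 * (Gg 13 1 t (t ^ 2 + r) * Gg 13 1 u (u ^ 2 + q)) * Gg 4 4 s (r * q) +
    1001/512 * (Gg 15 0 t (t ^ 2 + r) * Gg 15 0 u (u ^ 2 + q)) * Gg 4 5 s (r * q) := by
  simp only [Gg, Tc]
  push_cast
  ring

theorem pd7_5 : PD (fun x y : Fin 7 → ℝ => Gg 5 5 (dot x y) (nsq x * nsq y)) := by
  refine PD.congr (((((((pd6_0.comp Fin.tail).term (fun x => Gg 5 5 (x 0) (x 0 ^ 2 + nsq (Fin.tail x))) (c := 1/126) (by norm_num)).add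
    ((pd6_1.comp Fin.tail).term (fun x => Gg 7 4 (x 0) (x 0 ^ 2 + nsq (Fin.tail x))) (c := 1/168) (by norm_num))).add
    ((pd6_2.comp Fin.tail).term (fun x => Gg 9 3 (x 0) (x 0 ^ 2 + nsq (Fin.tail x))) (c := 7/792) (by norm_num))).add
    ((pd6_3.comp Fin.tail).term (fun x => Gg 11 2 (x 0) (x 0 ^ 2 + nsq (Fin.tail x))) (c := 35/1408) (by norm_num))).add
    ((pd6_4.comp Fin.tail).term (fun x => Gg 13 1 (x 0) (x 0 ^ 2 + nsq (Fin.tail x))) (c := 231/1664) (by norm_num))).add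
    ((pd6_5.comp Fin.tail).term (fun x => Gg 15 0 (x 0) (x 0 ^ 2 + nsq (Fin.tail x))) (c := 1001/512) (by norm_num))) fun x y => ?_
  rw [dot_succ, nsq_succ x, nsq_succ y, af7_5]

theorem af7_6 (t u s r q : ℝ) : Gg 5 6 (t * u + s) ((t ^ 2 + r) * (u ^ 2 + q)) =
    1/210 * (Gg 5 6 t (t ^ 2 + r) * Gg 5 6 u (u ^ 2 + q)) * Gg 4 0 s (r * q) +
    5/1848 * (Gg 7 5 t (t ^ 2 + r) * Gg 7 5 u (u ^ 2 + q)) * Gg 4 1 s (r * q) +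
    7/2376 * (Gg 9 4 t (t ^ 2 + r) * Gg 9 4 u (u ^ 2 + q)) * Gg 4 2 s (r * q) +
    105/18304 * (Gg 11 3 t (t ^ 2 + r) * Gg 11 3 u (u ^ 2 + q)) * Gg 4 3 s (r * q) +
    33/1664 * (Gg 13 2 t (t ^ 2 + r) * Gg 13 2 u (u ^ 2 + q)) * Gg 4 4 s (r * q) +
    1001/7680 * (Gg 15 1 t (t ^ 2 + r) * Gg 15 1 u (u ^ 2 + q)) * Gg 4 5 s (r * q) +
    2145/1024 * (Gg 17 0 t (t ^ 2 + r) * Gg 17 0 u (u ^ 2 + q)) * Gg 4 6 s (r * q) := by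
  simp only [Gg, Tc]
  push_cast
  ring

theorem pd7_6 : PD (fun x y : Fin 7 → ℝ => Gg 5 6 (dot x y) (nsq x * nsq y)) := by
  refine PD.congr ((((((((pd6_0.comp Fin.tail).term (fun x => Gg 5 6 (x 0) (x 0 ^ 2 + nsq (Fin.tail x))) (c := 1/210) (by norm_num)).add
    ((pd6_1.comp Fin.tail).term (fun x => Gg 7 5 (x 0) (x 0 ^ 2 + nsq (Fin.tail x))) (c := 5/1848) (by norm_num))).add
    ((pd6_2.comp Fin.tail).term (fun x => Gg 9 4 (x 0) (x 0 ^ 2 + nsq (Fin.tail x))) (c := 7/2376) (by norm_num))).add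
    ((pd6_3.comp Fin.tail).term (fun x => Gg 11 3 (x 0) (x 0 ^ 2 + nsq (Fin.tail x))) (c := 105/18304) (by norm_num))).add
    ((pd6_4.comp Fin.tail).term (fun x => Gg 13 2 (x 0) (x 0 ^ 2 + nsq (Fin.tail x))) (c := 33/1664) (by norm_num))).add
    ((pd6_5.comp Fin.tail).term (fun x => Gg 15 1 (x 0) (x 0 ^ 2 + nsq (Fin.tail x))) (c := 1001/7680) (by norm_num))).add
    ((pd6_6.comp Fin.tail).term (fun x => Gg 17 0 (x 0) (x 0 ^ 2 + nsq (Fin.tail x))) (c := 2145/1024) (by norm_num))) fun x y => ?_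
  rw [dot_succ, nsq_succ x, nsq_succ y, af7_6]

theorem af7_7 (t u s r q : ℝ) : Gg 5 7 (t * u + s) ((t ^ 2 + r) * (u ^ 2 + q)) =
    1/330 * (Gg 5 7 t (t ^ 2 + r) * Gg 5 7 u (u ^ 2 + q)) * Gg 4 0 s (r * q) +
    5/3696 * (Gg 7 6 t (t ^ 2 + r) * Gg 7 6 u (u ^ 2 + q)) * Gg 4 1 s (r * q) +
    35/30888 * (Gg 9 5 t (t ^ 2 + r) * Gg 9 5 u (u ^ 2 + q)) * Gg 4 2 s (r * q) +
    15/9152 * (Gg 11 4 t (t ^ 2 + r) * Gg 11 4 u (u ^ 2 + q)) * Gg 4 3 s (r * q) +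
    33/8320 * (Gg 13 3 t (t ^ 2 + r) * Gg 13 3 u (u ^ 2 + q)) * Gg 4 4 s (r * q) +
    1001/61440 * (Gg 15 2 t (t ^ 2 + r) * Gg 15 2 u (u ^ 2 + q)) * Gg 4 5 s (r * q) +
    2145/17408 * (Gg 17 1 t (t ^ 2 + r) * Gg 17 1 u (u ^ 2 + q)) * Gg 4 6 s (r * q) +
    36465/16384 * (Gg 19 0 t (t ^ 2 + r) * Gg 19 0 u (u ^ 2 + q)) * Gg 4 7 s (r * q) := by
  simp only [Gg, Tc]
  push_cast
  ring

theorem pd7_7 : PD (fun x y : Fin 7 → ℝ => Gg 5 7 (dot x y) (nsq x * nsq y)) := by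
  refine PD.congr (((((((((pd6_0.comp Fin.tail).term (fun x => Gg 5 7 (x 0) (x 0 ^ 2 + nsq (Fin.tail x))) (c := 1/330) (by norm_num)).add
    ((pd6_1.comp Fin.tail).term (fun x => Gg 7 6 (x 0) (x 0 ^ 2 + nsq (Fin.tail x))) (c := 5/3696) (by norm_num))).add
    ((pd6_2.comp Fin.tail).term (fun x => Gg 9 5 (x 0) (x 0 ^ 2 + nsq (Fin.tail x))) (c := 35/30888) (by norm_num))).add
    ((pd6_3.comp Fin.tail).term (fun x => Gg 11 4 (x 0) (x 0 ^ 2 + nsq (Fin.tail x))) (c := 15/9152) (by norm_num))).add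
    ((pd6_4.comp Fin.tail).term (fun x => Gg 13 3 (x 0) (x 0 ^ 2 + nsq (Fin.tail x))) (c := 33/8320) (by norm_num))).add
    ((pd6_5.comp Fin.tail).term (fun x => Gg 15 2 (x 0) (x 0 ^ 2 + nsq (Fin.tail x))) (c := 1001/61440) (by norm_num))).add
    ((pd6_6.comp Fin.tail).term (fun x => Gg 17 1 (x 0) (x 0 ^ 2 + nsq (Fin.tail x))) (c := 2145/17408) (by norm_num))).add
    ((pd6_7.comp Fin.tail).term (fun x => Gg 19 0 (x 0) (x 0 ^ 2 + nsq (Fin.tail x))) (c := 36465/16384) (by norm_num))) fun x y => ?_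
  rw [dot_succ, nsq_succ x, nsq_succ y, af7_7]

theorem pd8_0 : PD (fun x y : Fin 8 → ℝ => Gg 6 0 (dot x y) (nsq x * nsq y)) :=
  PD.one.congr fun x y => by rw [Gg]

theorem af8_1 (t u s r q : ℝ) : Gg 6 1 (t * u + s) ((t ^ 2 + r) * (u ^ 2 + q)) =
    1/6 * (Gg 6 1 t (t ^ 2 + r) * Gg 6 1 u (u ^ 2 + q)) * Gg 5 0 s (r * q) +
    6/5 * (Gg 8 0 t (t ^ 2 + r) * Gg 8 0 u (u ^ 2 + q)) * Gg 5 1 s (r * q) := by
  simp only [Gg, Tc]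
  push_cast
  ring

theorem pd8_1 : PD (fun x y : Fin 8 → ℝ => Gg 6 1 (dot x y) (nsq x * nsq y)) := by
  refine PD.congr (((pd7_0.comp Fin.tail).term (fun x => Gg 6 1 (x 0) (x 0 ^ 2 + nsq (Fin.tail x))) (c := 1/6) (by norm_num)).add
    ((pd7_1.comp Fin.tail).term (fun x => Gg 8 0 (x 0) (x 0 ^ 2 + nsq (Fin.tail x))) (c := 6/5) (by norm_num))) fun x y => ?_
  rw [dot_succ, nsq_succ x, nsq_succ y, af8_1]

theorem af8_2 (t u s r q : ℝ) : Gg 6 2 (t * u + s) ((t ^ 2 + r) * (u ^ 2 + q)) =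
    1/21 * (Gg 6 2 t (t ^ 2 + r) * Gg 6 2 u (u ^ 2 + q)) * Gg 5 0 s (r * q) +
    3/20 * (Gg 8 1 t (t ^ 2 + r) * Gg 8 1 u (u ^ 2 + q)) * Gg 5 1 s (r * q) +
    48/35 * (Gg 10 0 t (t ^ 2 + r) * Gg 10 0 u (u ^ 2 + q)) * Gg 5 2 s (r * q) := by
  simp only [Gg, Tc]
  push_cast
  ring

theorem pd8_2 : PD (fun x y : Fin 8 → ℝ => Gg 6 2 (dot x y) (nsq x * nsq y)) := by
  refine PD.congr ((((pd7_0.comp Fin.tail).term (fun x => Gg 6 2 (x 0) (x 0 ^ 2 + nsq (Fin.tail x))) (c := 1/21) (by norm_num)).add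
    ((pd7_1.comp Fin.tail).term (fun x => Gg 8 1 (x 0) (x 0 ^ 2 + nsq (Fin.tail x))) (c := 3/20) (by norm_num))).add
    ((pd7_2.comp Fin.tail).term (fun x => Gg 10 0 (x 0) (x 0 ^ 2 + nsq (Fin.tail x))) (c := 48/35) (by norm_num))) fun x y => ?_
  rw [dot_succ, nsq_succ x, nsq_succ y, af8_2]

theorem af8_3 (t u s r q : ℝ) : Gg 6 3 (t * u + s) ((t ^ 2 + r) * (u ^ 2 + q)) =
    1/56 * (Gg 6 3 t (t ^ 2 + r) * Gg 6 3 u (u ^ 2 + q)) * Gg 5 0 s (r * q) +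
    1/30 * (Gg 8 2 t (t ^ 2 + r) * Gg 8 2 u (u ^ 2 + q)) * Gg 5 1 s (r * q) +
    24/175 * (Gg 10 1 t (t ^ 2 + r) * Gg 10 1 u (u ^ 2 + q)) * Gg 5 2 s (r * q) +
    32/21 * (Gg 12 0 t (t ^ 2 + r) * Gg 12 0 u (u ^ 2 + q)) * Gg 5 3 s (r * q) := by
  simp only [Gg, Tc]
  push_cast
  ring

theorem pd8_3 : PD (fun x y : Fin 8 → ℝ => Gg 6 3 (dot x y) (nsq x * nsq y)) := by
  refine PD.congr (((((pd7_0.comp Fin.tail).term (fun x => Gg 6 3 (x 0) (x 0 ^ 2 + nsq (Fin.tail x))) (c := 1/56) (by norm_num)).add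
    ((pd7_1.comp Fin.tail).term (fun x => Gg 8 2 (x 0) (x 0 ^ 2 + nsq (Fin.tail x))) (c := 1/30) (by norm_num))).add
    ((pd7_2.comp Fin.tail).term (fun x => Gg 10 1 (x 0) (x 0 ^ 2 + nsq (Fin.tail x))) (c := 24/175) (by norm_num))).add
    ((pd7_3.comp Fin.tail).term (fun x => Gg 12 0 (x 0) (x 0 ^ 2 + nsq (Fin.tail x))) (c := 32/21) (by norm_num))) fun x y => ?_
  rw [dot_succ, nsq_succ x, nsq_succ y, af8_3]

theorem af8_4 (t u s r q : ℝ) : Gg 6 4 (t * u + s) ((t ^ 2 + r) * (u ^ 2 + q)) =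
    1/126 * (Gg 6 4 t (t ^ 2 + r) * Gg 6 4 u (u ^ 2 + q)) * Gg 5 0 s (r * q) +
    1/100 * (Gg 8 3 t (t ^ 2 + r) * Gg 8 3 u (u ^ 2 + q)) * Gg 5 1 s (r * q) +
    48/1925 * (Gg 10 2 t (t ^ 2 + r) * Gg 10 2 u (u ^ 2 + q)) * Gg 5 2 s (r * q) +
    8/63 * (Gg 12 1 t (t ^ 2 + r) * Gg 12 1 u (u ^ 2 + q)) * Gg 5 3 s (r * q) +
    128/77 * (Gg 14 0 t (t ^ 2 + r) * Gg 14 0 u (u ^ 2 + q)) * Gg 5 4 s (r * q) := by
  simp only [Gg, Tc]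
  push_cast
  ring

theorem pd8_4 : PD (fun x y : Fin 8 → ℝ => Gg 6 4 (dot x y) (nsq x * nsq y)) := by
  refine PD.congr ((((((pd7_0.comp Fin.tail).term (fun x => Gg 6 4 (x 0) (x 0 ^ 2 + nsq (Fin.tail x))) (c := 1/126) (by norm_num)).add
    ((pd7_1.comp Fin.tail).term (fun x => Gg 8 3 (x 0) (x 0 ^ 2 + nsq (Fin.tail x))) (c := 1/100) (by norm_num))).add
    ((pd7_2.comp Fin.tail).term (fun x => Gg 10 2 (x 0) (x 0 ^ 2 + nsq (Fin.tail x))) (c := 48/1925) (by norm_num))).add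
    ((pd7_3.comp Fin.tail).term (fun x => Gg 12 1 (x 0) (x 0 ^ 2 + nsq (Fin.tail x))) (c := 8/63) (by norm_num))).add
    ((pd7_4.comp Fin.tail).term (fun x => Gg 14 0 (x 0) (x 0 ^ 2 + nsq (Fin.tail x))) (c := 128/77) (by norm_num))) fun x y => ?_
  rw [dot_succ, nsq_succ x, nsq_succ y, af8_4]

theorem af8_5 (t u s r q : ℝ) : Gg 6 5 (t * u + s) ((t ^ 2 + r) * (u ^ 2 + q)) =
    1/252 * (Gg 6 5 t (t ^ 2 + r) * Gg 6 5 u (u ^ 2 + q)) * Gg 5 0 s (r * q) +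
    1/275 * (Gg 8 4 t (t ^ 2 + r) * Gg 8 4 u (u ^ 2 + q)) * Gg 5 1 s (r * q) +
    12/1925 * (Gg 10 3 t (t ^ 2 + r) * Gg 10 3 u (u ^ 2 + q)) * Gg 5 2 s (r * q) +
    16/819 * (Gg 12 2 t (t ^ 2 + r) * Gg 12 2 u (u ^ 2 + q)) * Gg 5 3 s (r * q) +
    64/539 * (Gg 14 1 t (t ^ 2 + r) * Gg 14 1 u (u ^ 2 + q)) * Gg 5 4 s (r * q) +
    256/143 * (Gg 16 0 t (t ^ 2 + r) * Gg 16 0 u (u ^ 2 + q)) * Gg 5 5 s (r * q) := by
  simp only [Gg, Tc]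
  push_cast
  ring

theorem pd8_5 : PD (fun x y : Fin 8 → ℝ => Gg 6 5 (dot x y) (nsq x * nsq y)) := by
  refine PD.congr (((((((pd7_0.comp Fin.tail).term (fun x => Gg 6 5 (x 0) (x 0 ^ 2 + nsq (Fin.tail x))) (c := 1/252) (by norm_num)).add
    ((pd7_1.comp Fin.tail).term (fun x => Gg 8 4 (x 0) (x 0 ^ 2 + nsq (Fin.tail x))) (c := 1/275) (by norm_num))).add
    ((pd7_2.comp Fin.tail).term (fun x => Gg 10 3 (x 0) (x 0 ^ 2 + nsq (Fin.tail x))) (c := 12/1925) (by norm_num))).add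
    ((pd7_3.comp Fin.tail).term (fun x => Gg 12 2 (x 0) (x 0 ^ 2 + nsq (Fin.tail x))) (c := 16/819) (by norm_num))).add
    ((pd7_4.comp Fin.tail).term (fun x => Gg 14 1 (x 0) (x 0 ^ 2 + nsq (Fin.tail x))) (c := 64/539) (by norm_num))).add
    ((pd7_5.comp Fin.tail).term (fun x => Gg 16 0 (x 0) (x 0 ^ 2 + nsq (Fin.tail x))) (c := 256/143) (by norm_num))) fun x y => ?_
  rw [dot_succ, nsq_succ x, nsq_succ y, af8_5]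

theorem af8_6 (t u s r q : ℝ) : Gg 6 6 (t * u + s) ((t ^ 2 + r) * (u ^ 2 + q)) =
    1/462 * (Gg 6 6 t (t ^ 2 + r) * Gg 6 6 u (u ^ 2 + q)) * Gg 5 0 s (r * q) +
    1/660 * (Gg 8 5 t (t ^ 2 + r) * Gg 8 5 u (u ^ 2 + q)) * Gg 5 1 s (r * q) +
    48/25025 * (Gg 10 4 t (t ^ 2 + r) * Gg 10 4 u (u ^ 2 + q)) * Gg 5 2 s (r * q) +
    8/1911 * (Gg 12 3 t (t ^ 2 + r) * Gg 12 3 u (u ^ 2 + q)) * Gg 5 3 s (r * q) +
    128/8085 * (Gg 14 2 t (t ^ 2 + r) * Gg 14 2 u (u ^ 2 + q)) * Gg 5 4 s (r * q) +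
    16/143 * (Gg 16 1 t (t ^ 2 + r) * Gg 16 1 u (u ^ 2 + q)) * Gg 5 5 s (r * q) +
    4096/2145 * (Gg 18 0 t (t ^ 2 + r) * Gg 18 0 u (u ^ 2 + q)) * Gg 5 6 s (r * q) := by
  simp only [Gg, Tc]
  push_cast
  ring

theorem pd8_6 : PD (fun x y : Fin 8 → ℝ => Gg 6 6 (dot x y) (nsq x * nsq y)) := by
  refine PD.congr ((((((((pd7_0.comp Fin.tail).term (fun x => Gg 6 6 (x 0) (x 0 ^ 2 + nsq (Fin.tail x))) (c := 1/462) (by norm_num)).add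
    ((pd7_1.comp Fin.tail).term (fun x => Gg 8 5 (x 0) (x 0 ^ 2 + nsq (Fin.tail x))) (c := 1/660) (by norm_num))).add
    ((pd7_2.comp Fin.tail).term (fun x => Gg 10 4 (x 0) (x 0 ^ 2 + nsq (Fin.tail x))) (c := 48/25025) (by norm_num))).add
    ((pd7_3.comp Fin.tail).term (fun x => Gg 12 3 (x 0) (x 0 ^ 2 + nsq (Fin.tail x))) (c := 8/1911) (by norm_num))).add
    ((pd7_4.comp Fin.tail).term (fun x => Gg 14 2 (x 0) (x 0 ^ 2 + nsq (Fin.tail x))) (c := 128/8085) (by norm_num))).add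
    ((pd7_5.comp Fin.tail).term (fun x => Gg 16 1 (x 0) (x 0 ^ 2 + nsq (Fin.tail x))) (c := 16/143) (by norm_num))).add
    ((pd7_6.comp Fin.tail).term (fun x => Gg 18 0 (x 0) (x 0 ^ 2 + nsq (Fin.tail x))) (c := 4096/2145) (by norm_num))) fun x y => ?_
  rw [dot_succ, nsq_succ x, nsq_succ y, af8_6]

theorem af8_7 (t u s r q : ℝ) : Gg 6 7 (t * u + s) ((t ^ 2 + r) * (u ^ 2 + q)) =
    1/792 * (Gg 6 7 t (t ^ 2 + r) * Gg 6 7 u (u ^ 2 + q)) * Gg 5 0 s (r * q) +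
    1/1430 * (Gg 8 6 t (t ^ 2 + r) * Gg 8 6 u (u ^ 2 + q)) * Gg 5 1 s (r * q) +
    24/35035 * (Gg 10 5 t (t ^ 2 + r) * Gg 10 5 u (u ^ 2 + q)) * Gg 5 2 s (r * q) +
    32/28665 * (Gg 12 4 t (t ^ 2 + r) * Gg 12 4 u (u ^ 2 + q)) * Gg 5 3 s (r * q) +
    8/2695 * (Gg 14 3 t (t ^ 2 + r) * Gg 14 3 u (u ^ 2 + q)) * Gg 5 4 s (r * q) +
    32/2431 * (Gg 16 2 t (t ^ 2 + r) * Gg 16 2 u (u ^ 2 + q)) * Gg 5 5 s (r * q) +
    2048/19305 * (Gg 18 1 t (t ^ 2 + r) * Gg 18 1 u (u ^ 2 + q)) * Gg 5 6 s (r * q) +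
    24576/12155 * (Gg 20 0 t (t ^ 2 + r) * Gg 20 0 u (u ^ 2 + q)) * Gg 5 7 s (r * q) := by
  simp only [Gg, Tc]
  push_cast
  ring

theorem pd8_7 : PD (fun x y : Fin 8 → ℝ => Gg 6 7 (dot x y) (nsq x * nsq y)) := by
  refine PD.congr (((((((((pd7_0.comp Fin.tail).term (fun x => Gg 6 7 (x 0) (x 0 ^ 2 + nsq (Fin.tail x))) (c := 1/792) (by norm_num)).add
    ((pd7_1.comp Fin.tail).term (fun x => Gg 8 6 (x 0) (x 0 ^ 2 + nsq (Fin.tail x))) (c := 1/1430) (by norm_num))).add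
    ((pd7_2.comp Fin.tail).term (fun x => Gg 10 5 (x 0) (x 0 ^ 2 + nsq (Fin.tail x))) (c := 24/35035) (by norm_num))).add
    ((pd7_3.comp Fin.tail).term (fun x => Gg 12 4 (x 0) (x 0 ^ 2 + nsq (Fin.tail x))) (c := 32/28665) (by norm_num))).add
    ((pd7_4.comp Fin.tail).term (fun x => Gg 14 3 (x 0) (x 0 ^ 2 + nsq (Fin.tail x))) (c := 8/2695) (by norm_num))).add
    ((pd7_5.comp Fin.tail).term (fun x => Gg 16 2 (x 0) (x 0 ^ 2 + nsq (Fin.tail x))) (c := 32/2431) (by norm_num))).add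
    ((pd7_6.comp Fin.tail).term (fun x => Gg 18 1 (x 0) (x 0 ^ 2 + nsq (Fin.tail x))) (c := 2048/19305) (by norm_num))).add
    ((pd7_7.comp Fin.tail).term (fun x => Gg 20 0 (x 0) (x 0 ^ 2 + nsq (Fin.tail x))) (c := 24576/12155) (by norm_num))) fun x y => ?_
  rw [dot_succ, nsq_succ x, nsq_succ y, af8_7]

end Pool.Agent.H66.Kiss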