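import Pool.Agent.H66.Kiss.Geg
import Pool.Agent.H66.Kiss.Check

/-!
# The local inequality
-/

set_option autoImplicit false

namespace Pool.Agent.H66.Kiss

open Finset

section sound

variable (x y c : ℝ)

theorem ev_sqs_nonneg (l : List (ℕ × P3)) : 0 ≤ ev3 x y c (sqs l) := by
  induction l with
  | nil => simp [sqs, ev3]
  | cons t l ih =>
    simp only [sqs, ev_add3, ev_smul3, ev_mul3]
    have h1 : (0 : ℝ) ≤ ((t.1 : ℤ) : ℝ) := by positivity
    have h2 := mul_self_nonneg (ev3 x y c t.2)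
    have := mul_nonneg h1 h2
    linarith

theorem block_nonneg (w : P3) (v : List P3) (cols : List (List ℤ)) (offs : List (ℕ × ℕ × ℤ))
    (sl : List ℕ) (hw : 0 ≤ ev3 x y c w) : 0 ≤ ev3 x y c (block w v cols offs sl) := by
  rw [block, ev_mul3]
  exact mul_nonneg hw (ev_sqs_nonneg x y c _)

theorem ev_inX (q : List ℤ) : ev3 x y c (inX q) = ev1 x q := by
  induction q with
  | nil => simp [inX, ev3, ev1]
  | cons a q ih =>
    have : inX (a :: q) = [[a]] :: inX q := rfl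
    rw [this, ev3, ih]
    simp [ev2, ev1]

theorem ev_inY (q : List ℤ) : ev3 x y c (inY q) = ev1 y q := by
  have h : ∀ q : List ℤ, ev2 y c (q.map fun a => [a]) = ev1 y q := by
    intro q
    induction q with
    | nil => simp [ev2, ev1]
    | cons a q ih =>
      rw [List.map_cons, ev2, ih]
      simp [ev1]
  rw [inY, ev3, h]
  simp [ev3]

/-- the value of `∑ c q(X) q(Y)` -/
noncomputable def kv (x y : ℝ) : List (ℕ × List ℤ) → ℝ
  | [] => 0
  | t :: l => (t.1 : ℝ) * (ev1 x t.2 * ev1 y t.2) + kv x y l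

theorem ev_kq (l : List (ℕ × List ℤ)) : ev3 x y c (kq l) = kv x y l := by
  induction l with
  | nil => simp [kq, ev3, kv]
  | cons t l ih => simp only [kq, kv, ev_add3, ev_smul3, ev_mul3, ev_inX, ev_inY, ih]; push_cast; ring

theorem ev_kern (g : P1) (l : List (ℕ × List ℤ)) : ev3 x y c (kern g l) = ev1 c g * kv x y l := by
  rw [kern, ev_mul3, ev_kq]
  simp [ev3, ev2]

end sound

/-- the kernel -/
noncomputable def Kf (x y c : ℝ) : ℝ := ev3 x y c Kpoly

theorem Kf_eq (x y c : ℝ) : Kf x y c =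
    ev1 c g0 * kv x y ((c0, phi0) :: k0) + (ev1 c g1 * kv x y k1 + (ev1 c g2 * kv x y k2 +
      (ev1 c g3 * kv x y k3 + (ev1 c g4 * kv x y k4 + (ev1 c g5 * kv x y k5 +
      (ev1 c g6 * kv x y k6 + ev1 c g7 * kv x y k7)))))) := by
  simp only [Kf, Kpoly, ev_add3, ev_kern]

theorem Kf_nonpos (x y c : ℝ) (hx : -1 ≤ x) (hx' : x ≤ 4 / 5) (hy : -1 ≤ y) (hy' : y ≤ 4 / 5)
    (hc : -2 ≤ c) (h : 64 ≤ (2 - c) * (8 - x) * (8 - y)) : Kf x y c ≤ 0 := by
  have h0 := ev_zero3 x y c _ check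
  rw [ev_add3] at h0
  have a1 : 0 ≤ 4 - 5 * x := by linarith
  have a2 : 0 ≤ 1 + x := by linarith
  have a3 : 0 ≤ 4 - 5 * y := by linarith
  have a4 : 0 ≤ 1 + y := by linarith
  have a5 : 0 ≤ c + 2 := by linarith
  have a6 : 0 ≤ (2 - c) * (8 - x) * (8 - y) - 64 := by linarith
  have e1 : 0 ≤ ev3 x y c wS0a := by
    have : ev3 x y c wS0a = 1 := by simp [wS0a, ev3, ev2, ev1]
    rw [this]; norm_num
  have e2 : 0 ≤ ev3 x y c wBll := by
    have : ev3 x y c wBll = ((2 - c) * (8 - x) * (8 - y) - 64) * (4 - 5 * x) * (4 - 5 * y) := by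
      simp only [wBll, ev3, ev2, ev1]; push_cast; ring
    rw [this]; positivity
  have e3 : 0 ≤ ev3 x y c wBlu := by
    have : ev3 x y c wBlu = ((2 - c) * (8 - x) * (8 - y) - 64) * (4 - 5 * x) * (1 + y) := by
      simp only [wBlu, ev3, ev2, ev1]; push_cast; ring
    rw [this]; positivity
  have e3s : 0 ≤ ev3 x y c wBlus := by
    have : ev3 x y c wBlus = ((2 - c) * (8 - x) * (8 - y) - 64) * (1 + x) * (4 - 5 * y) := by
      simp only [wBlus, ev3, ev2, ev1]; push_cast; ring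
    rw [this]; positivity
  have e4 : 0 ≤ ev3 x y c wBuu := by
    have : ev3 x y c wBuu = ((2 - c) * (8 - x) * (8 - y) - 64) * (1 + x) * (1 + y) := by
      simp only [wBuu, ev3, ev2, ev1]; push_cast; ring
    rw [this]; positivity
  have e5 : 0 ≤ ev3 x y c wS0b := by
    have : ev3 x y c wS0b = (4 - 5 * x) * (1 + x) := by
      simp only [wS0b, ev3, ev2, ev1]; push_cast; ring
    rw [this]; positivity
  have e5s : 0 ≤ ev3 x y c wS0bs := by
    have : ev3 x y c wS0bs = (4 - 5 * y) * (1 + y) := by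
      simp only [wS0bs, ev3, ev2, ev1]; push_cast; ring
    rw [this]; positivity
  have e6 : 0 ≤ ev3 x y c wAb := by
    have : ev3 x y c wAb = (c + 2) * (4 - 5 * x) * (1 + x) := by
      simp only [wAb, ev3, ev2, ev1]; push_cast; ring
    rw [this]; positivity
  have e6s : 0 ≤ ev3 x y c wAbs := by
    have : ev3 x y c wAbs = (c + 2) * (4 - 5 * y) * (1 + y) := by
      simp only [wAbs, ev3, ev2, ev1]; push_cast; ring
    rw [this]; positivity
  have e7 : 0 ≤ ev3 x y c wAbb := by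
    have : ev3 x y c wAbb = (c + 2) * ((4 - 5 * x) * (1 + x)) * ((4 - 5 * y) * (1 + y)) := by
      simp only [wAbb, ev3, ev2, ev1]; push_cast; ring
    rw [this]; positivity
  have hS : 0 ≤ ev3 x y c Spoly := by
    simp only [Spoly, ev_add3]
    have b1 := block_nonneg x y c wS0a bS0a cS0a oS0a sS0a e1
    have b2 := block_nonneg x y c wBll bBll cBll oBll sBll e2
    have b3 := block_nonneg x y c wBlu bBlu cBlu oBlu sBlu e3
    have b3s := block_nonneg x y c wBlus bBlus cBlu oBlu sBlu e3s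
    have b4 := block_nonneg x y c wBuu bBuu cBuu oBuu sBuu e4
    have b5 := block_nonneg x y c wS0b bS0b cS0b oS0b sS0b e5
    have b5s := block_nonneg x y c wS0bs bS0bs cS0b oS0b sS0b e5s
    have b6 := block_nonneg x y c wAb bAb cAb oAb sAb e6
    have b6s := block_nonneg x y c wAbs bAbs cAb oAb sAb e6s
    have b7 := block_nonneg x y c wAbb bAbb cAbb oAbb sAbb e7
    linarith
  rw [Kf]
  linarith


section pd

/-- points with a weight parameter -/
abbrev Pt := ℝ × (Fin 8 → ℝ)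

theorem pd_kv {F : (Fin 8 → ℝ) → (Fin 8 → ℝ) → ℝ} (hF : PD F) (l : List (ℕ × List ℤ)) :
    PD (fun p q : Pt => F p.2 q.2 * kv p.1 q.1 l) := by
  induction l with
  | nil =>
    refine ⟨fun ι _ x a => ?_⟩
    simp [kv]
  | cons t l ih =>
    have h1 : PD (fun p q : Pt => (t.1 : ℝ) * (ev1 p.1 t.2 * ev1 q.1 t.2) * F p.2 q.2) :=
      (hF.comp (fun p : Pt => p.2)).term (fun p : Pt => ev1 p.1 t.2) (by positivity)
    refine (h1.add ih).congr fun p q => ?_
    simp only [kv]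
    ring

theorem gg0 (s : ℝ) : Gg 6 0 s 1 = ev1 (2 * s) g0 := by simp [Gg, g0, ev1]
theorem gg1 (s : ℝ) : Gg 6 1 s 1 = ev1 (2 * s) g1 := by simp [Gg, g1, ev1]; ring
theorem gg2 (s : ℝ) : Gg 6 2 s 1 = ev1 (2 * s) g2 := by
  simp only [Gg, g2, ev1]; push_cast; ring
theorem gg3 (s : ℝ) : Gg 6 3 s 1 = ev1 (2 * s) g3 := by
  simp only [Gg, g3, ev1]; push_cast; ring
theorem gg4 (s : ℝ) : Gg 6 4 s 1 = ev1 (2 * s) g4 := by
  simp only [Gg, g4, ev1]; push_cast; ring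
theorem gg5 (s : ℝ) : Gg 6 5 s 1 = ev1 (2 * s) g5 := by
  simp only [Gg, g5, ev1]; push_cast; ring
theorem gg6 (s : ℝ) : Gg 6 6 s 1 = ev1 (2 * s) g6 := by
  simp only [Gg, g6, ev1]; push_cast; ring
theorem gg7 (s : ℝ) : Gg 6 7 s 1 = ev1 (2 * s) g7 := by
  simp only [Gg, g7, ev1]; push_cast; ring

/-- the part of the kernel without the square of `φ` is positive definite -/
theorem pd_rest : PD (fun p q : Pt =>
    Gg 6 0 (dot p.2 q.2) (nsq p.2 * nsq q.2) * kv p.1 q.1 k0 +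
    (Gg 6 1 (dot p.2 q.2) (nsq p.2 * nsq q.2) * kv p.1 q.1 k1 +
    (Gg 6 2 (dot p.2 q.2) (nsq p.2 * nsq q.2) * kv p.1 q.1 k2 +
    (Gg 6 3 (dot p.2 q.2) (nsq p.2 * nsq q.2) * kv p.1 q.1 k3 +
    (Gg 6 4 (dot p.2 q.2) (nsq p.2 * nsq q.2) * kv p.1 q.1 k4 +
    (Gg 6 5 (dot p.2 q.2) (nsq p.2 * nsq q.2) * kv p.1 q.1 k5 +
    (Gg 6 6 (dot p.2 q.2) (nsq p.2 * nsq q.2) * kv p.1 q.1 k6 +
    Gg 6 7 (dot p.2 q.2) (nsq p.2 * nsq q.2) * kv p.1 q.1 k7))))))) :=
  (pd_kv pd8_0 k0).add <| (pd_kv pd8_1 k1).add <| (pd_kv pd8_2 k2).add <| (pd_kv pd8_3 k3).add <|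
    (pd_kv pd8_4 k4).add <| (pd_kv pd8_5 k5).add <| (pd_kv pd8_6 k6).add (pd_kv pd8_7 k7)

/-- the weight `126 φ` -/
noncomputable def Phi (x : ℝ) : ℝ := ev1 x phi0

theorem Phi_eq (x : ℝ) : Phi x = 126 + 147 * x + 19 * x ^ 2 - 7 * x ^ 3 := by
  simp only [Phi, phi0, ev1]; push_cast; ring

theorem sum_lower {ι : Type} [Fintype ι] (x : ι → ℝ) (v : ι → Fin 8 → ℝ) (hv : ∀ i, nsq (v i) = 1) :
    (c0 : ℝ) * (∑ i, Phi (x i)) ^ 2 ≤ ∑ i, ∑ j, Kf (x i) (x j) (2 * dot (v i) (v j)) := by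
  have h := pd_rest.nonneg ι (fun i => (x i, v i)) (fun _ => 1)
  have e : ∑ i, ∑ j, Kf (x i) (x j) (2 * dot (v i) (v j)) = (c0 : ℝ) * (∑ i, Phi (x i)) ^ 2 +
      ∑ i, ∑ j, (1 : ℝ) * 1 * (Gg 6 0 (dot (v i) (v j)) (nsq (v i) * nsq (v j)) * kv (x i) (x j) k0 +
    (Gg 6 1 (dot (v i) (v j)) (nsq (v i) * nsq (v j)) * kv (x i) (x j) k1 +
    (Gg 6 2 (dot (v i) (v j)) (nsq (v i) * nsq (v j)) * kv (x i) (x j) k2 +
    (Gg 6 3 (dot (v i) (v j)) (nsq (v i) * nsq (v j)) * kv (x i) (x j) k3 +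
    (Gg 6 4 (dot (v i) (v j)) (nsq (v i) * nsq (v j)) * kv (x i) (x j) k4 +
    (Gg 6 5 (dot (v i) (v j)) (nsq (v i) * nsq (v j)) * kv (x i) (x j) k5 +
    (Gg 6 6 (dot (v i) (v j)) (nsq (v i) * nsq (v j)) * kv (x i) (x j) k6 +
    Gg 6 7 (dot (v i) (v j)) (nsq (v i) * nsq (v j)) * kv (x i) (x j) k7))))))) := by
    rw [sq, Finset.sum_mul_sum, Finset.mul_sum, ← Finset.sum_add_distrib]
    refine Finset.sum_congr rfl fun i _ => ?_
    rw [Finset.mul_sum, ← Finset.sum_add_distrib]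
    refine Finset.sum_congr rfl fun j _ => ?_
    rw [Kf_eq, hv i, hv j, mul_one, gg0, gg1, gg2, gg3, gg4, gg5, gg6, gg7]
    have h0 : ev1 (2 * dot (v i) (v j)) g0 = 1 := by simp [g0, ev1]
    simp only [h0, kv, Phi]
    ring
  rw [e]
  have h' := h
  simp only at h'
  linarith

end pd

section diag

theorem diag_eq (x : ℝ) : 240 * 126 * (c0 : ℝ) * Phi x - Kf x x 2 =
    x ^ 2 * ((495234514944000 - 856394999562240 * x + 17472109172981760 * x ^ 2) +
      ((4 - 5 * x) * (1 + x)) *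
        (54000000000000000 + 1448779581170933760 * x + 11302736015753011200 * x ^ 2)) := by
  rw [Kf_eq, Phi_eq]
  simp only [kv, k0, k1, k2, k3, k4, k5, k6, k7, g0, g1, g2, g3, g4, g5, g6, g7, c0, phi0, ev1]
  push_cast
  ring

theorem diag_le (x : ℝ) (hx : -1 ≤ x) (hx' : x ≤ 4 / 5) : Kf x x 2 ≤ 240 * 126 * (c0 : ℝ) * Phi x := by
  have h := diag_eq x
  have h1 : 0 ≤ 495234514944000 - 856394999562240 * x + 17472109172981760 * x ^ 2 := by
    nlinarith [sq_nonneg (2 * 17472109172981760 * x - 856394999562240)]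
  have h2 : 0 ≤ 54000000000000000 + 1448779581170933760 * x + 11302736015753011200 * x ^ 2 := by
    nlinarith [sq_nonneg (2 * 11302736015753011200 * x + 1448779581170933760)]
  have h3 : 0 ≤ (4 - 5 * x) * (1 + x) := mul_nonneg (by linarith) (by linarith)
  have h4 := mul_nonneg (sq_nonneg x) (add_nonneg h1 (mul_nonneg h3 h2))
  linarith

/-- **The local inequality.** Unit vectors `v i` of `ℝ⁸` with parameters `x i ∈ [-1, 4/5]` such that
`64 ≤ (2 - 2 ⟨v i, v j⟩) (8 - x i) (8 - x j)` for `i ≠ j` satisfy `∑ Φ(x i) ≤ 240 · 126`. -/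
theorem local_ineq {ι : Type} [Fintype ι] (x : ι → ℝ) (v : ι → Fin 8 → ℝ)
    (hv : ∀ i, nsq (v i) = 1) (hx : ∀ i, -1 ≤ x i) (hx' : ∀ i, x i ≤ 4 / 5)
    (hs : ∀ i j, i ≠ j → 64 ≤ (2 - 2 * dot (v i) (v j)) * (8 - x i) * (8 - x j)) :
    ∑ i, Phi (x i) ≤ 240 * 126 := by
  classical
  have hdot : ∀ i j, -1 ≤ dot (v i) (v j) := by
    intro i j
    have h : 0 ≤ ∑ l, (v i l + v j l) ^ 2 := Finset.sum_nonneg fun l _ => sq_nonneg _
    have e : ∑ l, (v i l + v j l) ^ 2 = nsq (v i) + 2 * dot (v i) (v j) + nsq (v j) := by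
      simp only [nsq, dot, Finset.mul_sum, ← Finset.sum_add_distrib]
      exact Finset.sum_congr rfl fun l _ => by ring
    rw [e, hv, hv] at h
    linarith
  have hself : ∀ i, dot (v i) (v i) = 1 := by
    intro i
    rw [← hv i]
    simp only [dot, nsq]
    exact Finset.sum_congr rfl fun l _ => by ring
  have h1 := sum_lower x v hv
  have h2 : ∑ i, ∑ j, Kf (x i) (x j) (2 * dot (v i) (v j)) ≤
      ∑ i, 240 * 126 * (c0 : ℝ) * Phi (x i) := by
    refine Finset.sum_le_sum fun i _ => ?_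
    rw [← Finset.add_sum_erase _ _ (Finset.mem_univ i), hself, mul_one]
    have h3 := diag_le (x i) (hx i) (hx' i)
    have h4 : ∑ j ∈ univ.erase i, Kf (x i) (x j) (2 * dot (v i) (v j)) ≤ 0 := by
      refine Finset.sum_nonpos fun j hj => ?_
      refine Kf_nonpos _ _ _ (hx i) (hx' i) (hx j) (hx' j) ?_ (hs i j (Finset.ne_of_mem_erase hj).symm)
      linarith [hdot i j]
    linarith
  rw [← Finset.mul_sum] at h2
  have hc : (0 : ℝ) < (c0 : ℝ) := by norm_num [c0]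
  set S := ∑ i, Phi (x i) with hS
  by_contra hcon
  push Not at hcon
  have h5 : (c0 : ℝ) * S ^ 2 ≤ 240 * 126 * (c0 : ℝ) * S := h1.trans h2
  have h6 : 0 < (c0 : ℝ) * S := mul_pos hc (by linarith)
  nlinarith

end diag

end Pool.Agent.H66.Kiss
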