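import Pool.Agent.H66.Kiss.Upper

/-!
# Large pieces of the lattice `E₈`
-/

set_option autoImplicit false

namespace Pool.Agent.H66.Kiss

open Finset Filter Topology

/-- the lattice `E₈`, scaled so that the minimal vectors have squared length `8` -/
def InL (z : Fin 8 → ℤ) : Prop := (∀ i, z i % 2 = z 0 % 2) ∧ (∑ i, z i) % 4 = 0

theorem InL.add {z w : Fin 8 → ℤ} (hz : InL z) (hw : InL w) : InL (z + w) := by
  refine ⟨fun i => ?_, ?_⟩
  · have h1 := hz.1 i
    have h2 := hw.1 i
    simp only [Pi.add_apply]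
    omega
  · have h1 := hz.2
    have h2 := hw.2
    simp only [Pi.add_apply, Finset.sum_add_distrib]
    omega

theorem InL.sub {z w : Fin 8 → ℤ} (hz : InL z) (hw : InL w) : InL (z - w) := by
  refine ⟨fun i => ?_, ?_⟩
  · have h1 := hz.1 i
    have h2 := hw.1 i
    simp only [Pi.sub_apply]
    omega
  · have h1 := hz.2
    have h2 := hw.2
    simp only [Pi.sub_apply, Finset.sum_sub_distrib]
    omega

theorem InL.norm {z : Fin 8 → ℤ} (hz : InL z) (h0 : z ≠ 0) : 8 ≤ ∑ i, z i ^ 2 := by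
  rcases Int.emod_two_eq_zero_or_one (z 0) with h | h
  · have h1 : ∀ i, ∃ w, z i = 2 * w := fun i => ⟨z i / 2, by have := hz.1 i; omega⟩
    choose w hw using h1
    have e1 : ∑ i, z i = 2 * ∑ i, w i := by
      rw [Finset.mul_sum]; exact Finset.sum_congr rfl fun i _ => hw i
    have e2 : ∑ i, z i ^ 2 = 4 * ∑ i, w i ^ 2 := by
      rw [Finset.mul_sum]; exact Finset.sum_congr rfl fun i _ => by rw [hw i]; ring
    have e3 : (2 : ℤ) ∣ ∑ i, (w i ^ 2 - w i) := by
      refine Finset.dvd_sum fun i _ => ?_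
      have : w i ^ 2 - w i = w i * (w i - 1) := by ring
      rw [this]
      exact even_iff_two_dvd.1 (Int.even_mul_pred_self (w i))
    rw [Finset.sum_sub_distrib] at e3
    have e4 := hz.2
    rw [e1] at e4
    have e5 : 0 ≤ ∑ i, w i ^ 2 := Finset.sum_nonneg fun i _ => sq_nonneg _
    have e6 : ∑ i, w i ^ 2 ≠ 0 := by
      intro h6
      apply h0
      have := (Finset.sum_eq_zero_iff_of_nonneg fun i _ => sq_nonneg (w i)).1 h6
      funext i
      have h7 := this i (Finset.mem_univ i)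
      have h8 : w i = 0 := by simpa using h7
      rw [hw i, h8]; simp
    rw [e2]
    omega
  · have h1 : ∀ i, 1 ≤ z i ^ 2 := by
      intro i
      have h2 : z i ≠ 0 := by
        have := hz.1 i
        intro h3
        rw [h3] at this
        omega
      have := Int.one_le_abs h2
      nlinarith [sq_abs (z i)]
    calc (8 : ℤ) = ∑ _i : Fin 8, (1 : ℤ) := by simp
      _ ≤ ∑ i, z i ^ 2 := Finset.sum_le_sum fun i _ => h1 i

/-- the vectors of length `n` with entries in `{0, 2, -2}` and exactly `k` nonzero entries -/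
def tw : ℕ → ℕ → List (List ℤ)
  | 0, 0 => [[]]
  | 0, _ + 1 => []
  | n + 1, 0 => (tw n 0).map fun l => 0 :: l
  | n + 1, k + 1 => ((tw n (k + 1)).map fun l => 0 :: l) ++ ((tw n k).map fun l => 2 :: l) ++
      ((tw n k).map fun l => -2 :: l)

/-- the sign vectors of length `n` -/
def sg : ℕ → List (List ℤ)
  | 0 => [[]]
  | n + 1 => ((sg n).map fun l => 1 :: l) ++ ((sg n).map fun l => -1 :: l)

/-- the minimal vectors of `E₈` -/
def roots : List (List ℤ) := tw 8 2 ++ (sg 8).filter fun l => l.sum % 4 == 0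

def toV (l : List ℤ) : Fin 8 → ℤ := fun i => l.getD i 0

def sqsum : List ℤ → ℤ
  | [] => 0
  | a :: l => a * a + sqsum l

def rootOK (l : List ℤ) : Bool :=
  (l.length == 8) && (l.all fun a => (a % 2 == (l.getD 0 0) % 2) && decide (-2 ≤ a) && decide (a ≤ 2)) &&
    (l.sum % 4 == 0) && (sqsum l == 8)

theorem roots_ok : roots.all rootOK = true := by decide +kernel

theorem roots_nodup : roots.Nodup := by decide +kernel

theorem roots_length : roots.length = 240 := by decide +kernel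

theorem root_form {l : List ℤ} (h : l.length = 8) :
    ∃ a0 a1 a2 a3 a4 a5 a6 a7 : ℤ, l = [a0, a1, a2, a3, a4, a5, a6, a7] := by
  match l, h with
  | [a0, a1, a2, a3, a4, a5, a6, a7], _ => exact ⟨a0, a1, a2, a3, a4, a5, a6, a7, rfl⟩

theorem root_spec {l : List ℤ} (hl : l ∈ roots) : l.length = 8 ∧ InL (toV l) ∧
    (∀ i, -2 ≤ toV l i ∧ toV l i ≤ 2) ∧ ∑ i, toV l i ^ 2 = 8 := by
  have h := List.all_eq_true.1 roots_ok l hl
  simp only [rootOK, Bool.and_eq_true, beq_iff_eq, List.all_eq_true, decide_eq_true_eq] at h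
  obtain ⟨⟨⟨h1, h2⟩, h3⟩, h4⟩ := h
  obtain ⟨a0, a1, a2, a3, a4, a5, a6, a7, rfl⟩ := root_form h1
  simp only [List.mem_cons, List.not_mem_nil, or_false, forall_eq_or_imp, forall_eq,
    List.getD_cons_zero] at h2
  simp only [List.sum_cons, List.sum_nil] at h3
  simp only [sqsum] at h4
  refine ⟨rfl, ⟨?_, ?_⟩, ?_, ?_⟩
  · intro i
    fin_cases i <;> simp [toV] <;> omega
  · simp only [Fin.sum_univ_eight]
    simp [toV]
    omega
  · intro i
    fin_cases i <;> simp [toV] <;> omega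
  · simp only [Fin.sum_univ_eight]
    simp [toV]
    nlinarith

theorem toV_inj {l l' : List ℤ} (h : l.length = 8) (h' : l'.length = 8) (e : toV l = toV l') :
    l = l' := by
  obtain ⟨a0, a1, a2, a3, a4, a5, a6, a7, rfl⟩ := root_form h
  obtain ⟨b0, b1, b2, b3, b4, b5, b6, b7, rfl⟩ := root_form h'
  have h0 := congrFun e 0
  have h1 := congrFun e 1
  have h2 := congrFun e 2
  have h3 := congrFun e 3
  have h4 := congrFun e 4
  have h5 := congrFun e 5
  have h6 := congrFun e 6
  have h7 := congrFun e 7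
  simp [toV] at h0 h1 h2 h3 h4 h5 h6 h7
  subst h0 h1 h2 h3 h4 h5 h6 h7
  rfl

open Classical in
/-- the minimal vectors as a finite set -/
noncomputable def rootF : Finset (Fin 8 → ℤ) := (roots.map toV).toFinset

theorem rootF_card : rootF.card = 240 := by
  classical
  rw [rootF, List.toFinset_card_of_nodup, List.length_map, roots_length]
  refine (List.nodup_map_iff_inj_on roots_nodup).2 fun l hl l' hl' e => ?_
  exact toV_inj (root_spec hl).1 (root_spec hl').1 e

theorem rootF_spec {e : Fin 8 → ℤ} (he : e ∈ rootF) :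
    InL e ∧ (∀ i, -2 ≤ e i ∧ e i ≤ 2) ∧ ∑ i, e i ^ 2 = 8 := by
  classical
  rw [rootF, List.mem_toFinset, List.mem_map] at he
  obtain ⟨l, hl, rfl⟩ := he
  exact (root_spec hl).2

open Classical in
/-- the lattice points in a lbox -/
noncomputable def lbox (m : ℕ) : Finset (Fin 8 → ℤ) :=
  (Fintype.piFinset fun _ : Fin 8 => Finset.Icc (-(m : ℤ)) m).filter InL

theorem mem_lbox {m : ℕ} {z : Fin 8 → ℤ} : z ∈ lbox m ↔ (∀ i, -(m : ℤ) ≤ z i ∧ z i ≤ m) ∧ InL z := by
  classical
  rw [lbox, Finset.mem_filter, Fintype.mem_piFinset]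
  simp only [Finset.mem_Icc]

/-- the lattice points in a box, as a type -/
def LB (m : ℕ) : Type := {z // z ∈ lbox m}

noncomputable instance (m : ℕ) : Fintype (LB m) := Finset.Subtype.fintype (lbox m)

/-- the point -/
def LB.z {m : ℕ} (a : LB m) : Fin 8 → ℤ := a.1

theorem LB.mem {m : ℕ} (a : LB m) : a.z ∈ lbox m := a.2

theorem LB.ext {m : ℕ} {a b : LB m} (h : a.z = b.z) : a = b := Subtype.ext h

/-- the constructor -/
def LB.mk {m : ℕ} (z : Fin 8 → ℤ) (h : z ∈ lbox m) : LB m := ⟨z, h⟩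

theorem LB.mk_z {m : ℕ} (z : Fin 8 → ℤ) (h : z ∈ lbox m) : (LB.mk z h).z = z := rfl

theorem LB.card (m : ℕ) : Fintype.card (LB m) = (lbox m).card := Fintype.card_coe (lbox m)

theorem lbox_mono {m : ℕ} : lbox m ⊆ lbox (m + 2) := by
  intro z hz
  rw [mem_lbox] at hz ⊢
  refine ⟨fun i => ?_, hz.2⟩
  have := hz.1 i
  push_cast
  omega

theorem lbox_card_le (m : ℕ) : (lbox m).card ≤ (2 * m + 1) ^ 8 := by
  classical
  rw [lbox]
  refine (Finset.card_filter_le _ _).trans ?_
  rw [Fintype.card_piFinset]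
  simp
  apply le_of_eq
  congr 1
  omega

theorem zero_mem_lbox (m : ℕ) : (0 : Fin 8 → ℤ) ∈ lbox m := by
  rw [mem_lbox]
  refine ⟨fun i => ?_, ⟨fun i => rfl, by simp⟩⟩
  simp

theorem lbox_growth (ε : ℝ) (hε : 0 < ε) (hε1 : ε < 1) :
    ∃ m, (1 - ε) * ((lbox (m + 2)).card : ℝ) ≤ (lbox m).card := by
  by_contra hcon
  push Not at hcon
  set q : ℝ := 1 / (1 - ε) with hq
  have h1e : 0 < 1 - ε := by linarith
  have hq1 : 1 < q := by rw [hq, lt_div_iff₀ h1e]; linarith
  have hgrow : ∀ k : ℕ, q ^ k ≤ ((lbox (2 * k)).card : ℝ) := by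
    intro k
    induction k with
    | zero =>
      simp only [pow_zero, Nat.mul_zero]
      exact_mod_cast Finset.card_pos.2 ⟨0, zero_mem_lbox 0⟩
    | succ k ih =>
      have h := hcon (2 * k)
      have e : 2 * (k + 1) = 2 * k + 2 := by ring
      rw [e, pow_succ]
      have h2 : ((lbox (2 * k)).card : ℝ) * q ≤ ((lbox (2 * k + 2)).card : ℝ) := by
        rw [hq, mul_one_div, div_le_iff₀ h1e]
        linarith
      exact (mul_le_mul_of_nonneg_right ih (by linarith)).trans h2
  have hpoly : ∀ k : ℕ, 1 ≤ k → q ^ k ≤ (5 : ℝ) ^ 8 * (k : ℝ) ^ 8 := by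
    intro k hk
    have h2 : ((lbox (2 * k)).card : ℝ) ≤ ((2 * (2 * k) + 1 : ℕ) : ℝ) ^ 8 := by
      exact_mod_cast lbox_card_le (2 * k)
    refine ((hgrow k).trans h2).trans ?_
    rw [← mul_pow]
    refine pow_le_pow_left₀ (by positivity) ?_ 8
    have : (1 : ℝ) ≤ k := by exact_mod_cast hk
    push_cast
    linarith
  have ht := tendsto_pow_const_div_const_pow_of_one_lt 8 hq1
  have ht2 : ∀ᶠ k : ℕ in atTop, (k : ℝ) ^ 8 / q ^ k < 1 / (5 : ℝ) ^ 8 :=
    ht.eventually (gt_mem_nhds (by positivity))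
  obtain ⟨k, hk1, hk2⟩ := (ht2.and (eventually_ge_atTop 1)).exists
  have h3 := hpoly k hk2
  have hqk : 0 < q ^ k := pow_pos (by linarith) k
  rw [div_lt_div_iff₀ hqk (by positivity)] at hk1
  linarith

/-- an integer vector as a point -/
noncomputable def pt (z : Fin 8 → ℤ) : E8 := WithLp.toLp 2 fun i => (z i : ℝ)

theorem dist_pt (z w : Fin 8 → ℤ) : dist (pt z) (pt w) = √((∑ i, (z i - w i) ^ 2 : ℤ) : ℝ) := by
  rw [EuclideanSpace.dist_eq]
  congr 1
  push_cast
  refine Finset.sum_congr rfl fun i _ => ?_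
  rw [Real.dist_eq, sq_abs]
  rfl

theorem sqrt8 : √(8 : ℝ) = √2 + √2 := by
  have : (8 : ℝ) = (2 * √2) ^ 2 := by rw [mul_pow, Real.sq_sqrt (by norm_num)]; norm_num
  rw [this, Real.sqrt_sq (by positivity)]
  ring

theorem pt_sep {z w : Fin 8 → ℤ} (hz : InL z) (hw : InL w) (h : z ≠ w) :
    √2 + √2 ≤ dist (pt z) (pt w) := by
  rw [dist_pt, ← sqrt8]
  apply Real.sqrt_le_sqrt
  have := (hz.sub hw).norm (sub_ne_zero.2 h)
  simp only [Pi.sub_apply] at this
  exact_mod_cast this

open Classical in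
theorem key_count {m : ℕ} (z : LB (m + 2)) (hz : z.z ∈ lbox m) :
    240 ≤ (univ.filter fun w : LB (m + 2) =>
          z ≠ w ∧ dist (pt z.z) (pt w.z) = √2 + √2).card := by
  rw [← rootF_card]
  have hmem : ∀ e ∈ rootF, z.z + e ∈ lbox (m + 2) := by
    intro e he
    obtain ⟨h1, h2, _⟩ := rootF_spec he
    rw [mem_lbox] at hz ⊢
    refine ⟨fun i => ?_, hz.2.add h1⟩
    have h3 := hz.1 i
    have h4 := h2 i
    simp only [Pi.add_apply]
    push_cast
    omega
  refine Finset.card_le_card_of_injOn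
    (fun e => if he : e ∈ rootF then LB.mk (z.z + e) (hmem e he) else z) ?_ ?_
  · intro e he
    have he' : e ∈ rootF := he
    simp only [he', dif_pos]
    rw [Finset.mem_coe, Finset.mem_filter]
    obtain ⟨h1, h2, h3⟩ := rootF_spec he'
    refine ⟨Finset.mem_univ _, ?_, ?_⟩
    · intro h
      have h4 := congrArg LB.z h
      rw [LB.mk_z] at h4
      have h5 : e = 0 := by simpa using h4
      rw [h5] at h3
      simp at h3
    · rw [dist_pt, ← sqrt8, LB.mk_z]
      congr 1
      have : ∑ i, (z.z i - (z.z + e) i) ^ 2 = 8 := by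
        rw [← h3]
        refine Finset.sum_congr rfl fun i _ => ?_
        simp only [Pi.add_apply]
        ring
      rw [this]
      norm_num
  · intro e he e' he' h
    have h1 : e ∈ rootF := he
    have h2 : e' ∈ rootF := he'
    simp only [h1, h2, dif_pos] at h
    have h4 := congrArg LB.z h
    rw [LB.mk_z, LB.mk_z] at h4
    exact add_left_cancel h4

open Classical in
theorem sum_count (m : ℕ) : 240 * (lbox m).card ≤ ∑ z : LB (m + 2),
    (univ.filter fun w : LB (m + 2) => z ≠ w ∧ dist (pt z.z) (pt w.z) = √2 + √2).card := by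
  have h1 : ((univ : Finset (LB (m + 2))).filter fun z => z.z ∈ lbox m).card = (lbox m).card := by
    refine Finset.card_bij (fun z _ => z.z) ?_ ?_ ?_
    · intro z hz
      exact (Finset.mem_filter.1 hz).2
    · intro z _ w _ h
      exact LB.ext h
    · intro z hz
      exact ⟨LB.mk z (lbox_mono hz), Finset.mem_filter.2 ⟨Finset.mem_univ _, hz⟩, rfl⟩
  calc 240 * (lbox m).card = ∑ _z ∈ (univ : Finset (LB (m + 2))).filter
        (fun z => z.z ∈ lbox m), 240 := by
        rw [Finset.sum_const, h1, smul_eq_mul, mul_comm]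
    _ ≤ ∑ z ∈ (univ : Finset (LB (m + 2))).filter
        (fun z => z.z ∈ lbox m), (univ.filter fun w : LB (m + 2) =>
          z ≠ w ∧ dist (pt z.z) (pt w.z) = √2 + √2).card :=
        Finset.sum_le_sum fun z hz => key_count z (Finset.mem_filter.1 hz).2
    _ ≤ _ := Finset.sum_le_sum_of_subset (Finset.filter_subset _ _)

open Classical in
/-- **Large pieces of `E₈`** have an average number of contacts close to `240`. -/
theorem lower (ε : ℝ) (hε : 0 < ε) : ∃ (ι : Type) (_ : Fintype ι) (_ : Nonempty ι) (p : ι → E8),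
    (∀ i j, i ≠ j → √2 + √2 ≤ dist (p i) (p j)) ∧
    (240 - ε) * Fintype.card ι ≤
      ((∑ i, (univ.filter fun j => i ≠ j ∧ dist (p i) (p j) = √2 + √2).card : ℕ) : ℝ) := by
  set δ : ℝ := min (ε / 240) (1 / 2) with hδ
  have hδ0 : 0 < δ := lt_min (by positivity) (by norm_num)
  have hδ1 : δ < 1 := (min_le_right _ _).trans_lt (by norm_num)
  obtain ⟨m, hm⟩ := lbox_growth δ hδ0 hδ1
  refine ⟨LB (m + 2), inferInstance, ⟨LB.mk 0 (zero_mem_lbox _)⟩, fun z => pt z.z, ?_, ?_⟩
  · intro z w hzw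
    exact pt_sep (mem_lbox.1 z.mem).2 (mem_lbox.1 w.mem).2 (fun h => hzw (LB.ext h))
  · have hsum' : (240 : ℝ) * (lbox m).card ≤ ((∑ z : LB (m + 2),
        (univ.filter fun w : LB (m + 2) =>
          z ≠ w ∧ dist (pt z.z) (pt w.z) = √2 + √2).card : ℕ) : ℝ) := by
      exact_mod_cast sum_count m
    refine le_trans ?_ hsum'
    rw [LB.card]
    have h5 : 240 * δ ≤ ε := by
      have := min_le_left (ε / 240) (1 / 2 : ℝ)
      rw [← hδ] at this
      linarith
    have h6 : (0 : ℝ) ≤ (lbox (m + 2)).card := Nat.cast_nonneg _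
    have h7 : 240 * δ * ((lbox (m + 2)).card : ℝ) ≤ ε * (lbox (m + 2)).card :=
      mul_le_mul_of_nonneg_right h5 h6
    calc (240 - ε) * ((lbox (m + 2)).card : ℝ)
        = 240 * ((lbox (m + 2)).card : ℝ) - ε * (lbox (m + 2)).card := by ring
      _ ≤ 240 * ((lbox (m + 2)).card : ℝ) - 240 * δ * ((lbox (m + 2)).card : ℝ) := by linarith
      _ = 240 * ((1 - δ) * ((lbox (m + 2)).card : ℝ)) := by ring
      _ ≤ 240 * (lbox m).card := by linarith

/-- the scaled minimal vectors: a kissing configuration of `240` unit balls -/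
theorem kiss240 : ∃ c : Fin 240 → E8, (∀ i, dist 0 (c i) = 2) ∧
    ∀ i j, i ≠ j → 2 ≤ dist (c i) (c j) := by
  have hs2 : (√2 : ℝ) * √2 = 2 := Real.mul_self_sqrt (by norm_num)
  have hs0 : (0 : ℝ) < √2 := Real.sqrt_pos.2 (by norm_num)
  let f : Fin 240 ≃ rootF := (Fintype.equivFinOfCardEq (by rw [Fintype.card_coe, rootF_card])).symm
  have hd : ∀ x y : E8, dist ((√2)⁻¹ • x) ((√2)⁻¹ • y) = (√2)⁻¹ * dist x y := by
    intro x y
    rw [dist_smul₀, Real.norm_of_nonneg (by positivity)]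
  refine ⟨fun i => (√2)⁻¹ • pt (f i), ?_, ?_⟩
  · intro i
    have h0 : (0 : E8) = (√2)⁻¹ • pt 0 := by
      have : pt 0 = 0 := by
        ext j
        simp [pt]
      rw [this, smul_zero]
    rw [h0, hd, dist_pt]
    have : ∑ j, ((0 : Fin 8 → ℤ) j - (f i : Fin 8 → ℤ) j) ^ 2 = 8 := by
      rw [← (rootF_spec (f i).2).2.2]
      refine Finset.sum_congr rfl fun j _ => ?_
      simp
    rw [this]
    push_cast
    rw [sqrt8]
    field_simp
    norm_num
  · intro i j hij
    have h1 := pt_sep (rootF_spec (f i).2).1 (rootF_spec (f j).2).1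
      (fun h => hij (f.injective (Subtype.ext h)))
    simp only [hd]
    calc (2 : ℝ) = (√2)⁻¹ * (√2 + √2) := by field_simp; norm_num
      _ ≤ _ := mul_le_mul_of_nonneg_left h1 (by positivity)

end Pool.Agent.H66.Kiss
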