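import Mathlib

/-!
# Polynomials in three variables as nested lists of integers

A small verified calculator, used to check the certificate by kernel computation.
-/

set_option autoImplicit false

namespace Pool.Agent.H66.Kiss

abbrev P1 := List ℤ
abbrev P2 := List P1
abbrev P3 := List P2

noncomputable def ev1 (c : ℝ) : P1 → ℝ
  | [] => 0
  | a :: p => (a : ℝ) + c * ev1 c p

noncomputable def ev2 (y c : ℝ) : P2 → ℝ
  | [] => 0
  | a :: p => ev1 c a + y * ev2 y c p

noncomputable def ev3 (x y c : ℝ) : P3 → ℝ
  | [] => 0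
  | a :: p => ev2 y c a + x * ev3 x y c p

def add1 : P1 → P1 → P1
  | [], q => q
  | a :: p, [] => a :: p
  | a :: p, b :: q => (a + b) :: add1 p q

def add2 : P2 → P2 → P2
  | [], q => q
  | a :: p, [] => a :: p
  | a :: p, b :: q => add1 a b :: add2 p q

def add3 : P3 → P3 → P3
  | [], q => q
  | a :: p, [] => a :: p
  | a :: p, b :: q => add2 a b :: add3 p q

def smul1 (a : ℤ) : P1 → P1
  | [] => []
  | b :: q => (a * b) :: smul1 a q

def smul2 (a : ℤ) : P2 → P2
  | [] => []
  | b :: q => smul1 a b :: smul2 a q

def smul3 (a : ℤ) : P3 → P3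
  | [] => []
  | b :: q => smul2 a b :: smul3 a q

def mul1 : P1 → P1 → P1
  | [], _ => []
  | a :: p, q => add1 (smul1 a q) (0 :: mul1 p q)

/-- multiplication of a polynomial in two variables by a polynomial in the inner variable -/
def lmul2 (a : P1) : P2 → P2
  | [] => []
  | b :: q => mul1 a b :: lmul2 a q

def mul2 : P2 → P2 → P2
  | [], _ => []
  | [a], q => lmul2 a q
  | a :: b :: p, q => add2 (lmul2 a q) ([] :: mul2 (b :: p) q)

def lmul3 (a : P2) : P3 → P3
  | [] => []
  | b :: q => mul2 a b :: lmul3 a q

def mul3 : P3 → P3 → P3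
  | [], _ => []
  | [a], q => lmul3 a q
  | a :: b :: p, q => add3 (lmul3 a q) ([] :: mul3 (b :: p) q)

def isZero1 : P1 → Bool
  | [] => true
  | a :: p => (a == 0) && isZero1 p

def isZero2 : P2 → Bool
  | [] => true
  | a :: p => isZero1 a && isZero2 p

def isZero3 : P3 → Bool
  | [] => true
  | a :: p => isZero2 a && isZero3 p

variable (x y c : ℝ)

theorem ev_add1 (p q : P1) : ev1 c (add1 p q) = ev1 c p + ev1 c q := by
  induction p generalizing q with
  | nil => simp [add1, ev1]
  | cons a p ih => cases q with
    | nil => simp [add1, ev1]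
    | cons b q => simp only [add1, ev1, ih]; push_cast; ring

theorem ev_add2 (p q : P2) : ev2 y c (add2 p q) = ev2 y c p + ev2 y c q := by
  induction p generalizing q with
  | nil => simp [add2, ev2]
  | cons a p ih => cases q with
    | nil => simp [add2, ev2]
    | cons b q => simp only [add2, ev2, ih, ev_add1]; ring

theorem ev_add3 (p q : P3) : ev3 x y c (add3 p q) = ev3 x y c p + ev3 x y c q := by
  induction p generalizing q with
  | nil => simp [add3, ev3]
  | cons a p ih => cases q with
    | nil => simp [add3, ev3]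
    | cons b q => simp only [add3, ev3, ih, ev_add2]; ring

theorem ev_smul1 (a : ℤ) (p : P1) : ev1 c (smul1 a p) = a * ev1 c p := by
  induction p with
  | nil => simp [smul1, ev1]
  | cons b p ih => simp only [smul1, ev1, ih]; push_cast; ring

theorem ev_smul2 (a : ℤ) (p : P2) : ev2 y c (smul2 a p) = a * ev2 y c p := by
  induction p with
  | nil => simp [smul2, ev2]
  | cons b p ih => simp only [smul2, ev2, ih, ev_smul1]; ring

theorem ev_smul3 (a : ℤ) (p : P3) : ev3 x y c (smul3 a p) = a * ev3 x y c p := by
  induction p with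
  | nil => simp [smul3, ev3]
  | cons b p ih => simp only [smul3, ev3, ih, ev_smul2]; ring

theorem ev_mul1 (p q : P1) : ev1 c (mul1 p q) = ev1 c p * ev1 c q := by
  induction p with
  | nil => simp [mul1, ev1]
  | cons a p ih => simp only [mul1, ev1, ev_add1, ev_smul1, ih]; push_cast; ring

theorem ev_lmul2 (a : P1) (q : P2) : ev2 y c (lmul2 a q) = ev1 c a * ev2 y c q := by
  induction q with
  | nil => simp [lmul2, ev2]
  | cons b q ih => simp only [lmul2, ev2, ih, ev_mul1]; ring

theorem ev_mul2 (p q : P2) : ev2 y c (mul2 p q) = ev2 y c p * ev2 y c q := by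
  induction p with
  | nil => simp [mul2, ev2]
  | cons a p ih => cases p with
    | nil => simp only [mul2, ev2, ev_lmul2]; ring
    | cons b p => simp only [mul2, ev2, ev_add2, ev_lmul2, ev1, ih]; ring

theorem ev_lmul3 (a : P2) (q : P3) : ev3 x y c (lmul3 a q) = ev2 y c a * ev3 x y c q := by
  induction q with
  | nil => simp [lmul3, ev3]
  | cons b q ih => simp only [lmul3, ev3, ih, ev_mul2]; ring

theorem ev_mul3 (p q : P3) : ev3 x y c (mul3 p q) = ev3 x y c p * ev3 x y c q := by
  induction p with
  | nil => simp [mul3, ev3]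
  | cons a p ih => cases p with
    | nil => simp only [mul3, ev3, ev_lmul3]; ring
    | cons b p => simp only [mul3, ev3, ev_add3, ev_lmul3, ev2, ih]; ring

theorem ev_zero1 (p : P1) (h : isZero1 p = true) : ev1 c p = 0 := by
  induction p with
  | nil => rfl
  | cons a p ih =>
    simp only [isZero1, Bool.and_eq_true, beq_iff_eq] at h
    simp [ev1, h.1, ih h.2]

theorem ev_zero2 (p : P2) (h : isZero2 p = true) : ev2 y c p = 0 := by
  induction p with
  | nil => rfl
  | cons a p ih =>
    simp only [isZero2, Bool.and_eq_true] at h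
    simp [ev2, ev_zero1 c a h.1, ih h.2]

theorem ev_zero3 (p : P3) (h : isZero3 p = true) : ev3 x y c p = 0 := by
  induction p with
  | nil => rfl
  | cons a p ih =>
    simp only [isZero3, Bool.and_eq_true] at h
    simp [ev3, ev_zero2 y c a h.1, ih h.2]

end Pool.Agent.H66.Kiss
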