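import Pool.Agent.H66.Kiss.Local

/-!
# From the local inequality to the average number of contacts
-/

set_option autoImplicit false

namespace Pool.Agent.H66.Kiss

open Finset

abbrev E8 := EuclideanSpace ℝ (Fin 8)

theorem nsq_eq (v : E8) : nsq (fun l => v l) = ‖v‖ ^ 2 := by
  rw [EuclideanSpace.norm_sq_eq]
  simp [nsq]

theorem dot_eq (v w : E8) : dot (fun l => v l) (fun l => w l) = inner ℝ v w := by
  rw [PiLp.inner_apply]
  simp [dot, mul_comm]

/-- the separation of two touching balls -/
theorem sep_ineq (p q s : E8) (ri rj rk : ℝ) (hi : 0 < ri) (hj : 0 < rj) (hk : 0 < rk)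
    (hq : dist p q = ri + rj) (hs : dist p s = ri + rk) (hqs : rj + rk ≤ dist q s) :
    2 * rj * rk ≤ (ri + rj) * (ri + rk) *
      (1 - inner ℝ ((ri + rj)⁻¹ • (q - p)) ((ri + rk)⁻¹ • (s - p))) := by
  have ha : 0 < ri + rj := by linarith
  have hb : 0 < ri + rk := by linarith
  have h1 : ‖q - p‖ = ri + rj := by rw [← dist_eq_norm, dist_comm]; exact hq
  have h2 : ‖s - p‖ = ri + rk := by rw [← dist_eq_norm, dist_comm]; exact hs
  have h3 : (rj + rk) ^ 2 ≤ ‖(q - p) - (s - p)‖ ^ 2 := by
    have e : (q - p) - (s - p) = q - s := by abel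
    rw [e, ← dist_eq_norm]
    exact pow_le_pow_left₀ (by linarith) hqs 2
  rw [norm_sub_sq_real, h1, h2] at h3
  rw [real_inner_smul_left, real_inner_smul_right]
  have e : (ri + rj) * (ri + rk) * (1 - (ri + rj)⁻¹ * ((ri + rk)⁻¹ * inner ℝ (q - p) (s - p))) =
      (ri + rj) * (ri + rk) - inner ℝ (q - p) (s - p) := by
    field_simp
  rw [e]
  nlinarith

/-- the parameter of a neighbour of radius `b` of a ball of radius `a` -/
noncomputable def par (a b : ℝ) : ℝ := 4 - 4 * (a / b)

open Classical in
/-- the weight of a neighbour of radius `b` of a ball of radius `a` -/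
noncomputable def wt (a b : ℝ) : ℝ := if -1 ≤ par a b then Phi (min (par a b) (4 / 5)) else 0

theorem wt_add (a b : ℝ) (ha : 0 < a) (hb : 0 < b) : 252 ≤ wt a b + wt b a := by
  wlog hab : a ≤ b generalizing a b
  · rw [add_comm]
    exact this b a hb ha (le_of_not_ge hab)
  have h1 : 0 < a / b := div_pos ha hb
  have h2 : a / b ≤ 1 := (div_le_one hb).2 hab
  have h3 : -1 ≤ par a b := by unfold par; linarith
  have hba : b / a = (a / b)⁻¹ := by rw [inv_div]
  rcases le_or_gt (par a b) (4 / 5) with h4 | h4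
  · have h5 : 4 / 5 ≤ a / b := by unfold par at h4; linarith
    have h6 : b / a ≤ 5 / 4 := by
      rw [hba, inv_le_comm₀ h1 (by norm_num)]
      linarith
    have h7 : -1 ≤ par b a := by unfold par; linarith
    have h8 : 1 ≤ b / a := by rw [hba]; exact (one_le_inv₀ h1).2 h2
    have h9 : par b a ≤ 4 / 5 := by unfold par; linarith
    rw [wt, if_pos h3, min_eq_left h4, wt, if_pos h7, min_eq_left h9, Phi_eq, Phi_eq]
    have h10 : (par a b) * (par b a) = 4 * (par a b + par b a) := by
      unfold par
      field_simp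
      ring
    set X := par a b
    set Y := par b a
    have hS : X + Y ≤ 0 := by
      have : X + Y = 8 - 4 * (a / b) - 4 * (b / a) := by simp only [X, Y, par]; ring
      rw [this]
      have h11 : (a / b) * (b / a) = 1 := by field_simp
      nlinarith [sq_nonneg (a / b - b / a), sq_nonneg (a / b + b / a)]
    have e : 126 + 147 * X + 19 * X ^ 2 - 7 * X ^ 3 + (126 + 147 * Y + 19 * Y ^ 2 - 7 * Y ^ 3) =
        252 - 5 * (X + Y) + 103 * (X + Y) ^ 2 - 7 * (X + Y) ^ 3 := by
      linear_combination (-38 + 21 * (X + Y)) * h10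
    rw [e]
    have h12 : 0 ≤ -(X + Y) ^ 3 := by
      have : -(X + Y) ^ 3 = (-(X + Y)) ^ 3 := by ring
      rw [this]
      exact pow_nonneg (by linarith) 3
    nlinarith [sq_nonneg (X + Y)]
  · have h5 : a / b < 4 / 5 := by unfold par at h4; linarith
    have h6 : 5 / 4 < b / a := by
      rw [hba, lt_inv_comm₀ (by norm_num) h1]
      linarith
    have h7 : ¬ -1 ≤ par b a := by unfold par; linarith
    rw [wt, if_pos h3, min_eq_right h4.le, wt, if_neg h7, Phi_eq]
    norm_num

open Classical in
/-- **Main inequality**: the number of ordered pairs of touching balls is at most `240` times the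
number of balls. -/
theorem main_count {ι : Type} [Fintype ι] (p : ι → E8) (r : ι → ℝ) (hr : ∀ i, 0 < r i)
    (hsep : ∀ i j, i ≠ j → r i + r j ≤ dist (p i) (p j)) :
    ((∑ i, (univ.filter fun j => i ≠ j ∧ dist (p i) (p j) = r i + r j).card : ℕ) : ℝ) ≤
      240 * Fintype.card ι := by
  set A : ι → ι → Prop := fun i j => i ≠ j ∧ dist (p i) (p j) = r i + r j with hA
  have hAs : ∀ i j, A i j → A j i := fun i j h => ⟨h.1.symm, by rw [dist_comm, h.2, add_comm]⟩
  -- the local inequality for every ball
  have hloc : ∀ i, ∑ j ∈ univ.filter (A i), wt (r i) (r j) ≤ 240 * 126 := by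
    intro i
    have e1 : ∑ j ∈ univ.filter (A i), wt (r i) (r j) =
        ∑ j ∈ univ.filter (fun j => A i j ∧ -1 ≤ par (r i) (r j)),
          Phi (min (par (r i) (r j)) (4 / 5)) := by
      rw [Finset.sum_filter, Finset.sum_filter]
      refine Finset.sum_congr rfl fun j _ => ?_
      by_cases h1 : A i j
      · by_cases h2 : -1 ≤ par (r i) (r j)
        · rw [if_pos h1, if_pos (⟨h1, h2⟩ : A i j ∧ _), wt, if_pos h2]
        · rw [if_pos h1, if_neg (fun h => h2 h.2), wt, if_neg h2]
      · rw [if_neg h1, if_neg (fun h => h1 h.1)]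
    have e2 : ∑ j ∈ univ.filter (fun j => A i j ∧ -1 ≤ par (r i) (r j)),
          Phi (min (par (r i) (r j)) (4 / 5)) =
        ∑ j : {j // A i j ∧ -1 ≤ par (r i) (r j)}, Phi (min (par (r i) (r j)) (4 / 5)) := by
      refine Finset.sum_subtype _ (fun j => ?_) _
      simp
    rw [e1, e2]
    refine local_ineq (ι := {j // A i j ∧ -1 ≤ par (r i) (r j)})
      (fun j => min (par (r i) (r j)) (4 / 5))
      (fun j l => ((r i + r j)⁻¹ • (p j - p i) : E8) l) ?_ ?_ ?_ ?_
    · intro j
      rw [nsq_eq, norm_smul, ← dist_eq_norm, dist_comm, j.2.1.2]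
      have h : 0 < r i + r j := add_pos (hr i) (hr j)
      rw [norm_inv, Real.norm_of_nonneg h.le, inv_mul_cancel₀ h.ne', one_pow]
    · intro j
      exact le_min j.2.2 (by norm_num)
    · intro j
      exact min_le_right _ _
    · intro j k hjk
      have hjk' : (j : ι) ≠ k := fun h => hjk (Subtype.ext h)
      have h1 := sep_ineq (p i) (p j) (p k) (r i) (r j) (r k) (hr i) (hr j) (hr k)
        j.2.1.2 k.2.1.2 (hsep _ _ hjk')
      rw [dot_eq]
      set c : ℝ := inner ℝ ((r i + r j)⁻¹ • (p j - p i)) ((r i + r k)⁻¹ • (p k - p i)) with hc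
      have hj := hr j
      have hk := hr k
      have hi := hr i
      have g1 : 4 * (r i + r j) / r j ≤ 8 - min (par (r i) (r j)) (4 / 5) := by
        have : 4 * (r i + r j) / r j = 8 - par (r i) (r j) := by
          unfold par; field_simp; ring
        rw [this]
        linarith [min_le_left (par (r i) (r j)) (4 / 5)]
      have g2 : 4 * (r i + r k) / r k ≤ 8 - min (par (r i) (r k)) (4 / 5) := by
        have : 4 * (r i + r k) / r k = 8 - par (r i) (r k) := by
          unfold par; field_simp; ring
        rw [this]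
        linarith [min_le_left (par (r i) (r k)) (4 / 5)]
      have g3 : 0 ≤ 2 - 2 * c := by
        by_contra hcon
        push Not at hcon
        have : (r i + r j) * (r i + r k) * (1 - c) ≤ 0 :=
          mul_nonpos_of_nonneg_of_nonpos (by positivity) (by linarith)
        have : 0 < 2 * r j * r k := by positivity
        linarith
      have g4 : 64 ≤ (2 - 2 * c) * (4 * (r i + r j) / r j) * (4 * (r i + r k) / r k) := by
        have e : (2 - 2 * c) * (4 * (r i + r j) / r j) * (4 * (r i + r k) / r k) =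
            32 * ((r i + r j) * (r i + r k) * (1 - c)) / (r j * r k) := by
          field_simp
          ring
        rw [e, le_div_iff₀ (by positivity)]
        nlinarith
      refine g4.trans ?_
      have g5 : 0 < 4 * (r i + r j) / r j := by positivity
      have g6 : 0 < 4 * (r i + r k) / r k := by positivity
      refine mul_le_mul (mul_le_mul_of_nonneg_left g1 g3) g2 g6.le ?_
      exact mul_nonneg g3 (by linarith)
  -- double counting
  have hsum : ∑ i, ∑ j ∈ univ.filter (A i), wt (r i) (r j) ≤ 240 * 126 * Fintype.card ι := by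
    calc ∑ i, ∑ j ∈ univ.filter (A i), wt (r i) (r j) ≤ ∑ _i : ι, (240 * 126 : ℝ) :=
          Finset.sum_le_sum fun i _ => hloc i
      _ = 240 * 126 * Fintype.card ι := by
          rw [Finset.sum_const, Finset.card_univ, nsmul_eq_mul]; ring
  have hswap : ∑ i, ∑ j ∈ univ.filter (A i), wt (r i) (r j) =
      ∑ i, ∑ j ∈ univ.filter (A i), wt (r j) (r i) := by
    simp only [Finset.sum_filter]
    rw [Finset.sum_comm]
    refine Finset.sum_congr rfl fun i _ => Finset.sum_congr rfl fun j _ => ?_
    by_cases h : A i j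
    · rw [if_pos h, if_pos (hAs _ _ h)]
    · rw [if_neg h, if_neg (fun h' => h (hAs _ _ h'))]
  have hlow : ∑ i, ∑ j ∈ univ.filter (A i), (252 : ℝ) ≤
      ∑ i, ∑ j ∈ univ.filter (A i), (wt (r i) (r j) + wt (r j) (r i)) :=
    Finset.sum_le_sum fun i _ => Finset.sum_le_sum fun j _ => wt_add _ _ (hr i) (hr j)
  have e1 : ∑ i, ∑ j ∈ univ.filter (A i), (252 : ℝ) =
      252 * ((∑ i, (univ.filter (A i)).card : ℕ) : ℝ) := by
    push_cast
    rw [Finset.mul_sum]
    refine Finset.sum_congr rfl fun i _ => ?_
    rw [Finset.sum_const, nsmul_eq_mul]; ring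
  have e2 : ∑ i, ∑ j ∈ univ.filter (A i), (wt (r i) (r j) + wt (r j) (r i)) =
      2 * ∑ i, ∑ j ∈ univ.filter (A i), wt (r i) (r j) := by
    simp only [Finset.sum_add_distrib]
    rw [← hswap]; ring
  rw [e1, e2] at hlow
  have : ((∑ i, (univ.filter (A i)).card : ℕ) : ℝ) ≤ 240 * Fintype.card ι := by linarith
  exact this

end Pool.Agent.H66.Kiss
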